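import Pool.Agent.Q59.FS.Main
import Pool.Agent.H916R2.Full

/-!
# Short Hodge characters
-/

namespace Pool.Agent.Q59.FS

open Finset Pool.Agent.H916R2

section Short

variable {m : ℕ} [NeZero m]

/-- the weight of the entries of order divisible by `pp p * pp q` -/
noncomputable def ww (p q : ℕ) (s : Multiset (ZMod m)) : ℤ := (s.map fun a => om p q (addOrderOf a)).sum

lemma NN_count_le (s : Multiset (ZMod m)) (p q : ℕ) :
    NN (fun a : ZMod m => ((s.count a : ℕ) : ℤ)) p q ≤ 2 * ww p q s := by
  have h1 := sum_count s (fun a => om p q (addOrderOf a))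
  have h2 : ∑ a : ZMod m, om p q (addOrderOf a) * ((s.count a : ℕ) : ℤ) = ww p q s := by
    unfold ww
    rw [← h1]
    exact sum_congr rfl fun a _ => by rw [smul_eq_mul, mul_comm]
  have h3 : ∑ a : ZMod m, om p q (addOrderOf a) * ((s.count (-a) : ℕ) : ℤ) = ww p q s := by
    rw [← h2]
    refine Fintype.sum_equiv (Equiv.neg _) _ _ fun a => ?_
    simp only [Equiv.neg_apply]
    rw [addOrderOf_neg]
  have h4 : NN (fun a : ZMod m => ((s.count a : ℕ) : ℤ)) p q ≤
      ∑ a : ZMod m, (om p q (addOrderOf a) * ((s.count a : ℕ) : ℤ) +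
        om p q (addOrderOf a) * ((s.count (-a) : ℕ) : ℤ)) := by
    unfold NN
    refine sum_le_sum fun a _ => ?_
    rw [← mul_add]
    refine mul_le_mul_of_nonneg_left ?_ (om_nonneg _ _ _)
    unfold od
    have := abs_sub ((s.count a : ℕ) : ℤ) ((s.count (-a) : ℕ) : ℤ)
    rwa [abs_of_nonneg (by positivity : (0 : ℤ) ≤ ((s.count a : ℕ) : ℤ)),
      abs_of_nonneg (by positivity : (0 : ℤ) ≤ ((s.count (-a) : ℕ) : ℤ))] at this
  rw [sum_add_distrib, h2, h3] at h4
  linarith

/-- odd distributions kill short Hodge characters -/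
theorem short_kill {s : Multiset (ZMod m)} (hs : IsHodge m s)
    (hsh : ∀ p q : ℕ, p.Prime → q.Prime → p ≠ q → 4 * ww p q s < nn p * nn q)
    {Q : Type} [AddCommGroup Q] {c : ZMod m → Q} (hc : OddDist c) : (s.map c).sum = 0 := by
  rw [← sum_count]
  refine kill_of_short _ _ rfl hs.rel (fun p q hp hq hpq => ?_) Q c hc
  have h1 := NN_count_le s p q
  have h2 := hsh p q hp hq hpq
  linarith

/-- short Hodge characters are generated by pairs and standard characters -/
theorem short_generated {s : Multiset (ZMod m)} (hs : IsHodge m s) (hne : s ≠ 0)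
    (hsh : ∀ p q : ℕ, p.Prime → q.Prime → p ≠ q → 4 * ww p q s < nn p * nn q) :
    Generated m (fun _ => False) s := by
  have h2 : (s.map (cQ m (fun _ => False))).sum = 0 := short_kill hs hsh cQ_oddDist
  rw [cQ_sum, QuotientAddGroup.eq_zero_iff] at h2
  exact generated_of_mem_LL (fun _ h => h.elim) (fun _ h => h.elim) hs.1 hs.2.1 hne h2

end Short

end Pool.Agent.Q59.FS
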