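import Pool.Agent.Q59.FS.Grp2

/-!
# Box sums from functionals with vanishing coset sums
-/

namespace Pool.Agent.Q59.FS

open Finset

variable {G : Type*} [CommGroup G] [Fintype G]

/-- vanishing coset sums -/
def Z0 (P : List (Subgroup G)) (b : G → ℤ) : Prop :=
  ∀ K ∈ P, ∀ u, ∑ κ ∈ KF K, b (u * κ) = 0

theorem lb_of_functionals {F : G → ℤ} {P : List (Subgroup G)} : ∀ (P0 : List (Subgroup G)),
    (∀ b : G → ℤ, Z0 P0 b → Z0 P b → ∑ w, F w * b w = 0) →
    ∀ b0 : G → ℤ, Z0 P0 b0 → LB P (fun v => ∑ w, F (v * w) * b0 w) := by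
  induction P with
  | nil =>
    intro P0 h b0 hb0
    change ∑ w, F (1 * w) * b0 w = 0
    simp only [one_mul]
    exact h b0 hb0 (fun K hK => absurd hK (List.not_mem_nil))
  | cons K P ih =>
    intro P0 h b0 hb0 κ hκ κ' hκ'
    have hshift : ∀ (κ : G) (v : G), ∑ w, F (v * κ * w) * b0 w = ∑ w, F (v * w) * b0 (κ⁻¹ * w) := by
      intro κ v
      refine Fintype.sum_equiv (Equiv.mulLeft κ) _ _ fun w => ?_
      simp [mul_assoc]
    have h1 : (fun v => ∑ w, F (v * κ * w) * b0 w - ∑ w, F (v * κ' * w) * b0 w) =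
        fun v => ∑ w, F (v * w) * (b0 (κ⁻¹ * w) - b0 (κ'⁻¹ * w)) := by
      funext v
      rw [hshift, hshift, ← sum_sub_distrib]
      exact sum_congr rfl fun w _ => by ring
    rw [h1]
    refine ih (K :: P0) ?_ _ ?_
    · intro b hb1 hb2
      refine h b (fun K' hK' => hb1 K' (List.mem_cons_of_mem _ hK')) ?_
      intro K' hK'
      rcases List.mem_cons.mp hK' with rfl | h2
      · exact hb1 _ (List.mem_cons_self ..)
      · exact hb2 K' h2
    · intro K' hK' u
      rw [sum_sub_distrib]
      rcases List.mem_cons.mp hK' with rfl | h2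
      · have h3 : ∀ κ ∈ K', ∑ x ∈ KF K', b0 (κ⁻¹ * (u * x)) = ∑ x ∈ KF K', b0 (u * x) := by
          intro κ hκ
          have := sum_KF_mul (K'.inv_mem hκ) (fun y => b0 (u * y))
          rw [← this]
          refine sum_congr rfl fun x _ => ?_
          congr 1
          rw [mul_left_comm]
        rw [h3 κ hκ, h3 κ' hκ', sub_self]
      · have h3 : ∀ κ : G, ∑ x ∈ KF K', b0 (κ⁻¹ * (u * x)) = 0 := by
          intro κ
          have := hb0 K' h2 (κ⁻¹ * u)
          rw [← this]
          exact sum_congr rfl fun x _ => by rw [mul_assoc]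
        rw [h3, h3, sub_zero]

/-- box sums at every base point -/
theorem lb_TT {F : G → ℤ} {P : List (Subgroup G)}
    (h : ∀ b : G → ℤ, Z0 P b → ∑ w, F w * b w = 0) (u : G) : LB P (TT u F) := by
  classical
  have h1 := lb_of_functionals (F := F) (P := P) [] (fun b _ hb => h b hb)
    (fun w => if w = u then 1 else 0) (fun K hK => absurd hK (List.not_mem_nil))
  have e : (fun v => ∑ w, F (v * w) * (if w = u then 1 else 0)) = TT u F := by
    funext v
    simp [TT, mul_comm]
  rwa [e] at h1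

end Pool.Agent.Q59.FS
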