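import Pool.Agent.Q59.FS.Ker

/-!
# Extension of partial odd distributions
-/

namespace Pool.Agent.Q59.FS

open Finset Pool.Agent.H916R2

section Aux

variable {m : ℕ} [NeZero m]

lemma mul_cast_zero {p e : ℕ} (hpe : p * e = m) : (p : ZMod m) * (e : ZMod m) = 0 := by
  have : ((p * e : ℕ) : ZMod m) = 0 := by rw [hpe]; simp
  simpa using this

lemma dvd_mul_zero {M p e : ℕ} (hpe : p * e = m) (hp : p ∣ M) : (M : ZMod m) * (e : ZMod m) = 0 := by
  obtain ⟨k, rfl⟩ := hp
  have := mul_cast_zero hpe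
  push_cast
  linear_combination (k : ZMod m) * this

/-- reindexing by a number prime to `p` -/
lemma coset_sum_coprime {Q : Type*} [AddCommMonoid Q] (f : ZMod m → Q) {p e : ℕ} (hpe : p * e = m)
    {l : ℕ} (hl : l.Coprime p) (a : ZMod m) :
    ∑ i ∈ range p, f (a + (l : ZMod m) * ((i : ZMod m) * (e : ZMod m))) =
      ∑ i ∈ range p, f (a + (i : ZMod m) * (e : ZMod m)) := by
  have hm : 0 < m := NeZero.pos m
  have hp : 0 < p := Nat.pos_of_ne_zero (by rintro rfl; simp at hpe; omega)
  have hpd0 := mul_cast_zero hpe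
  have hmod : ∀ x : ℕ, ((x % p : ℕ) : ZMod m) * (e : ZMod m) = (x : ZMod m) * e := by
    intro x
    conv_rhs => rw [← Nat.mod_add_div x p]
    push_cast
    linear_combination - ((x / p : ℕ) : ZMod m) * hpd0
  have hinj : Set.InjOn (fun i => (l * i) % p) (range p : Finset ℕ) := by
    intro i hi j hj h
    have h1 : l * i ≡ l * j [MOD p] := h
    have h2 := Nat.ModEq.cancel_left_of_coprime (Nat.coprime_comm.mp hl) h1
    have h3 : i % p = j % p := h2
    rwa [Nat.mod_eq_of_lt (mem_range.mp hi), Nat.mod_eq_of_lt (mem_range.mp hj)] at h3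
  have himg : (range p).image (fun i => (l * i) % p) = range p := by
    apply eq_of_subset_of_card_le
    · intro x hx
      obtain ⟨i, _, rfl⟩ := mem_image.mp hx
      exact mem_range.mpr (Nat.mod_lt _ hp)
    · rw [card_image_of_injOn hinj]
  conv_rhs => rw [← himg, sum_image hinj]
  refine sum_congr rfl fun i _ => ?_
  congr 2
  rw [hmod]
  push_cast
  ring

/-- elements killed by `p` -/
lemma exists_mul_of_killed {p e : ℕ} (hpe : p * e = m) {b : ZMod m} (hb : (p : ZMod m) * b = 0) :
    ∃ j < p, b = (j : ZMod m) * (e : ZMod m) := by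
  have hm : 0 < m := NeZero.pos m
  have hp : 0 < p := Nat.pos_of_ne_zero (by rintro rfl; simp at hpe; omega)
  have h1 : ((p * b.val : ℕ) : ZMod m) = 0 := by
    push_cast; rw [ZMod.natCast_zmod_val]; exact hb
  rw [ZMod.natCast_eq_zero_iff] at h1
  have h2 : p * e ∣ p * b.val := by rw [hpe]; exact h1
  obtain ⟨j, hj⟩ := Nat.dvd_of_mul_dvd_mul_left hp h2
  refine ⟨j, ?_, ?_⟩
  · have h3 := ZMod.val_lt b
    rw [hj, ← hpe, mul_comm p] at h3
    exact Nat.lt_of_mul_lt_mul_left h3
  · rw [← ZMod.natCast_zmod_val b, hj]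
    push_cast; ring

lemma order_mul_dvd (n : ℕ) (a : ZMod m) : addOrderOf ((n : ZMod m) * a) ∣ addOrderOf a := by
  rw [← nsmul_eq_mul, addOrderOf_dvd_iff_nsmul_eq_zero, ← mul_smul, mul_comm, mul_smul,
    addOrderOf_nsmul_eq_zero, smul_zero]

/-- common annihilators -/
lemma killed_gcd {A B : ℕ} {a : ZMod m} (hA : (A : ZMod m) * a = 0) (hB : (B : ZMod m) * a = 0) :
    ((Nat.gcd A B : ℕ) : ZMod m) * a = 0 := by
  rw [← nsmul_eq_mul] at hA hB ⊢
  rw [← addOrderOf_dvd_iff_nsmul_eq_zero] at hA hB ⊢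
  exact Nat.dvd_gcd hA hB

end Aux

/-- partial odd distributions on the `M`-torsion, supported on orders divisible by `D` -/
structure PD {m : ℕ} (M D : ℕ) (φ : ZMod m → ℚ) : Prop where
  neg : ∀ a, φ (-a) = - φ a
  supp : ∀ a, φ a ≠ 0 → (M : ZMod m) * a = 0
  ord : ∀ a, φ a ≠ 0 → D ∣ addOrderOf a
  dist : ∀ p e : ℕ, p.Prime → p * e = m → p ∣ M → ∀ a, (M : ZMod m) * a = 0 →
    ∑ i ∈ range p, φ (a + (i : ZMod m) * (e : ZMod m)) = φ ((p : ZMod m) * a)

variable {m : ℕ} [NeZero m] {M D : ℕ} {φ : ZMod m → ℚ}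

/-- extension, first case -/
lemma PD.ext_dvd (h : PD M D φ) {ℓ : ℕ} (hℓ : ℓ.Prime) (hdvd : ℓ ∣ M) :
    ∃ φ' : ZMod m → ℚ, PD (M * ℓ) D φ' ∧ ∀ a, (M : ZMod m) * a = 0 → φ' a = φ a := by
  classical
  set φ' : ZMod m → ℚ := fun a => if (M : ZMod m) * a = 0 then φ a else
    if ((M * ℓ : ℕ) : ZMod m) * a = 0 then φ ((ℓ : ZMod m) * a) / ℓ else 0 with hφ'
  have v1 : ∀ a, (M : ZMod m) * a = 0 → φ' a = φ a := fun a ha => by
    simp only [hφ']; rw [if_pos ha]
  have v2 : ∀ a, ¬ (M : ZMod m) * a = 0 → ((M * ℓ : ℕ) : ZMod m) * a = 0 →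
      φ' a = φ ((ℓ : ZMod m) * a) / ℓ := fun a h1 h2 => by
    simp only [hφ']; rw [if_neg h1, if_pos h2]
  have v3 : ∀ a, ¬ ((M * ℓ : ℕ) : ZMod m) * a = 0 → φ' a = 0 := fun a h2 => by
    have h1 : ¬ (M : ZMod m) * a = 0 := fun h0 => h2 (by
      push_cast
      linear_combination (ℓ : ZMod m) * h0)
    simp only [hφ']; rw [if_neg h1, if_neg h2]
  have hℓ0 : (ℓ : ℚ) ≠ 0 := by exact_mod_cast hℓ.ne_zero
  refine ⟨φ', ⟨?_, ?_, ?_, ?_⟩, v1⟩
  · intro a
    by_cases h1 : (M : ZMod m) * a = 0
    · rw [v1 a h1, v1 (-a) (by rw [mul_neg, h1, neg_zero]), h.neg]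
    · have h1' : ¬ (M : ZMod m) * (-a) = 0 := by rwa [mul_neg, neg_eq_zero]
      by_cases h2 : ((M * ℓ : ℕ) : ZMod m) * a = 0
      · rw [v2 a h1 h2, v2 (-a) h1' (by rw [mul_neg, h2, neg_zero]), mul_neg, h.neg, neg_div]
      · rw [v3 a h2, v3 (-a) (by rwa [mul_neg, neg_eq_zero]), neg_zero]
  · intro a ha
    by_contra hcon
    exact ha (v3 a hcon)
  · intro a ha
    by_cases h1 : (M : ZMod m) * a = 0
    · rw [v1 a h1] at ha
      exact h.ord a ha
    · by_cases h2 : ((M * ℓ : ℕ) : ZMod m) * a = 0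
      · rw [v2 a h1 h2] at ha
        have h3 : φ ((ℓ : ZMod m) * a) ≠ 0 := fun h0 => ha (by rw [h0, zero_div])
        exact (h.ord _ h3).trans (order_mul_dvd ℓ a)
      · exact absurd (v3 a h2) ha
  · intro p e hp hpe hpM a ha
    have hpM' : p ∣ M := by
      rcases (Nat.Prime.dvd_mul hp).mp hpM with h0 | h0
      · exact h0
      · exact ((Nat.prime_dvd_prime_iff_eq hp hℓ).mp h0) ▸ hdvd
    have hMe : (M : ZMod m) * (e : ZMod m) = 0 := dvd_mul_zero hpe hpM'
    have hshift : ∀ i : ℕ, (M : ZMod m) * (a + (i : ZMod m) * (e : ZMod m)) = (M : ZMod m) * a := by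
      intro i
      linear_combination (i : ZMod m) * hMe
    by_cases h1 : (M : ZMod m) * a = 0
    · rw [v1 ((p : ZMod m) * a) (by linear_combination (p : ZMod m) * h1),
        ← h.dist p e hp hpe hpM' a h1]
      exact sum_congr rfl fun i _ => v1 _ (by rw [hshift, h1])
    · have ht : ∀ i ∈ range p, φ' (a + (i : ZMod m) * (e : ZMod m)) =
          φ ((ℓ : ZMod m) * (a + (i : ZMod m) * (e : ZMod m))) / ℓ := by
        intro i _
        refine v2 _ (by rw [hshift]; exact h1) ?_
        have h0 : ((M * ℓ : ℕ) : ZMod m) * (a + (i : ZMod m) * (e : ZMod m)) =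
            ((M * ℓ : ℕ) : ZMod m) * a := by
          push_cast
          linear_combination ((i : ZMod m) * ℓ) * hMe
        rw [h0, ha]
      rw [sum_congr rfl ht, ← sum_div]
      have hMℓa : (M : ZMod m) * ((ℓ : ZMod m) * a) = 0 := by
        have := ha
        push_cast at this
        linear_combination this
      by_cases hpl : p = ℓ
      · subst hpl
        have hc : ∀ i ∈ range p, φ ((p : ZMod m) * (a + (i : ZMod m) * (e : ZMod m))) =
            φ ((p : ZMod m) * a) := by
          intro i _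
          congr 1
          linear_combination (i : ZMod m) * mul_cast_zero hpe
        rw [sum_congr rfl hc, sum_const, card_range, nsmul_eq_mul, mul_div_cancel_left₀ _ hℓ0,
          v1 _ hMℓa]
      · have hcop : ℓ.Coprime p := (Nat.coprime_primes hℓ hp).mpr (Ne.symm hpl)
        have h3 : ∑ i ∈ range p, φ ((ℓ : ZMod m) * (a + (i : ZMod m) * (e : ZMod m))) =
            φ ((p : ZMod m) * ((ℓ : ZMod m) * a)) := by
          rw [← h.dist p e hp hpe hpM' _ hMℓa, ← coset_sum_coprime φ hpe hcop]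
          exact sum_congr rfl fun i _ => by rw [mul_add]
        have h4 : ¬ (M : ZMod m) * ((p : ZMod m) * a) = 0 := by
          intro h0
          apply h1
          have hA : ((M * ℓ : ℕ) : ZMod m) * a = 0 := ha
          have hB : ((M * p : ℕ) : ZMod m) * a = 0 := by
            push_cast
            linear_combination h0
          have := killed_gcd hA hB
          rwa [Nat.gcd_mul_left, hcop.gcd_eq_one, mul_one] at this
        rw [h3, v2 _ h4 (by
          have := ha
          push_cast at this ⊢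
          linear_combination (p : ZMod m) * this)]
        congr 2
        ring

/-- extension, second case -/
lemma PD.ext_not_dvd (h : PD M D φ) {ℓ : ℕ} (hℓ : ℓ.Prime) (hdvd : ¬ ℓ ∣ M) (hMm : M * ℓ ∣ m) :
    ∃ φ' : ZMod m → ℚ, PD (M * ℓ) D φ' ∧ ∀ a, (M : ZMod m) * a = 0 → φ' a = φ a := by
  classical
  have hM0 : M ≠ 0 := by rintro rfl; simp at hdvd
  have hcopM : M.Coprime ℓ := Nat.coprime_comm.mp ((Nat.Prime.coprime_iff_not_dvd hℓ).mpr hdvd)
  obtain ⟨e0, he1, he2⟩ : ∃ e0 : ℕ, e0 ≡ 1 [MOD M] ∧ e0 ≡ 0 [MOD ℓ] :=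
    ⟨_, (Nat.chineseRemainder hcopM 1 0).2⟩
  have he2' : ℓ ∣ e0 := (Nat.modEq_zero_iff_dvd).mp he2
  have hmul : ∀ b : ZMod m, (M : ZMod m) * b = 0 → (e0 : ZMod m) * b = b := by
    intro b hb
    have h1 : (M : ℤ) ∣ (1 : ℤ) - e0 := by
      have := (Nat.modEq_iff_dvd).mp he1
      exact_mod_cast this
    obtain ⟨k, hk⟩ := h1
    have h2 : (1 : ZMod m) - (e0 : ZMod m) = (M : ZMod m) * (k : ZMod m) := by
      have := congrArg (fun z : ℤ => (z : ZMod m)) hk
      push_cast at this
      exact this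
    linear_combination -b * h2 - (k : ZMod m) * hb
  set φ' : ZMod m → ℚ := fun a => if (M : ZMod m) * a = 0 then φ a else
    if ((M * ℓ : ℕ) : ZMod m) * a = 0 then
      (φ ((ℓ : ZMod m) * ((e0 : ZMod m) * a)) - φ ((e0 : ZMod m) * a)) / (ℓ - 1) else 0 with hφ'
  have v1 : ∀ a, (M : ZMod m) * a = 0 → φ' a = φ a := fun a ha => by
    simp only [hφ']; rw [if_pos ha]
  have v2 : ∀ a, ¬ (M : ZMod m) * a = 0 → ((M * ℓ : ℕ) : ZMod m) * a = 0 →
      φ' a = (φ ((ℓ : ZMod m) * ((e0 : ZMod m) * a)) - φ ((e0 : ZMod m) * a)) / (ℓ - 1) :=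
    fun a h1 h2 => by simp only [hφ']; rw [if_neg h1, if_pos h2]
  have v3 : ∀ a, ¬ ((M * ℓ : ℕ) : ZMod m) * a = 0 → φ' a = 0 := fun a h2 => by
    have h1 : ¬ (M : ZMod m) * a = 0 := fun h0 => h2 (by
      push_cast
      linear_combination (ℓ : ZMod m) * h0)
    simp only [hφ']; rw [if_neg h1, if_neg h2]
  have hℓ1 : (ℓ : ℚ) - 1 ≠ 0 := by
    have : (1 : ℚ) < ℓ := by exact_mod_cast hℓ.one_lt
    linarith
  refine ⟨φ', ⟨?_, ?_, ?_, ?_⟩, v1⟩
  · intro a
    by_cases h1 : (M : ZMod m) * a = 0
    · rw [v1 a h1, v1 (-a) (by rw [mul_neg, h1, neg_zero]), h.neg]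
    · have h1' : ¬ (M : ZMod m) * (-a) = 0 := by rwa [mul_neg, neg_eq_zero]
      by_cases h2 : ((M * ℓ : ℕ) : ZMod m) * a = 0
      · rw [v2 a h1 h2, v2 (-a) h1' (by rw [mul_neg, h2, neg_zero]), mul_neg, mul_neg, h.neg,
          h.neg]
        ring
      · rw [v3 a h2, v3 (-a) (by rwa [mul_neg, neg_eq_zero]), neg_zero]
  · intro a ha
    by_contra hcon
    exact ha (v3 a hcon)
  · intro a ha
    by_cases h1 : (M : ZMod m) * a = 0
    · rw [v1 a h1] at ha
      exact h.ord a ha
    · by_cases h2 : ((M * ℓ : ℕ) : ZMod m) * a = 0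
      · rw [v2 a h1 h2] at ha
        by_cases h3 : φ ((e0 : ZMod m) * a) = 0
        · have h4 : φ ((ℓ : ZMod m) * ((e0 : ZMod m) * a)) ≠ 0 := by
            intro h0
            apply ha
            rw [h0, h3, sub_zero, zero_div]
          exact (h.ord _ h4).trans ((order_mul_dvd ℓ _).trans (order_mul_dvd e0 a))
        · exact (h.ord _ h3).trans (order_mul_dvd e0 a)
      · exact absurd (v3 a h2) ha
  · intro p e hp hpe hpM a ha
    have ha' : (M : ZMod m) * ((ℓ : ZMod m) * a) = 0 := by
      have := ha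
      push_cast at this
      linear_combination this
    have hea : (M : ZMod m) * ((e0 : ZMod m) * a) = 0 := by
      obtain ⟨k, hk⟩ := he2'
      rw [hk]
      push_cast
      linear_combination (k : ZMod m) * ha'
    by_cases hpl : p = ℓ
    · subst hpl
      -- the case of the new prime
      have hkill : (p : ZMod m) * ((e0 : ZMod m) * a - a) = 0 := by
        have := hmul _ ha'
        linear_combination this
      obtain ⟨j, hj, hj'⟩ := exists_mul_of_killed hpe hkill
      have hj'' : (e0 : ZMod m) * a = a + (j : ZMod m) * (e : ZMod m) := by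
        linear_combination hj'
      have he0e : (e0 : ZMod m) * (e : ZMod m) = 0 := dvd_mul_zero hpe he2'
      have h5 : ∀ i ∈ range p, i ≠ j → φ' (a + (i : ZMod m) * (e : ZMod m)) =
          (φ ((p : ZMod m) * ((e0 : ZMod m) * a)) - φ ((e0 : ZMod m) * a)) / (p - 1) := by
        intro i hi hij
        have hnz : ¬ (M : ZMod m) * (a + (i : ZMod m) * (e : ZMod m)) = 0 := by
          intro h0
          have h6 : (M : ZMod m) * ((i : ZMod m) * (e : ZMod m)) =
              (M : ZMod m) * ((j : ZMod m) * (e : ZMod m)) := by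
            have := hea
            rw [hj''] at this
            linear_combination h0 - this
          have h7 : ((M * i * e : ℕ) : ZMod m) = ((M * j * e : ℕ) : ZMod m) := by
            push_cast
            linear_combination h6
          rw [ZMod.natCast_eq_natCast_iff] at h7
          have he : 0 < e := Nat.pos_of_ne_zero (by
            rintro rfl; rw [mul_zero] at hpe; exact NeZero.ne m hpe.symm)
          have h8 : M * i ≡ M * j [MOD p] := by
            have h9 : M * i * e ≡ M * j * e [MOD p * e] := by rw [hpe]; exact h7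
            exact Nat.ModEq.mul_right_cancel' he.ne' h9
          have h9 := Nat.ModEq.cancel_left_of_coprime (Nat.coprime_comm.mp hcopM) h8
          have h10 : i % p = j % p := h9
          rw [Nat.mod_eq_of_lt (mem_range.mp hi), Nat.mod_eq_of_lt hj] at h10
          exact hij h10
        have hz : ((M * p : ℕ) : ZMod m) * (a + (i : ZMod m) * (e : ZMod m)) = 0 := by
          have h0 := mul_cast_zero hpe
          have := ha
          push_cast at this ⊢
          linear_combination this + ((M : ZMod m) * i) * h0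
        have e1 : (e0 : ZMod m) * (a + (i : ZMod m) * (e : ZMod m)) = (e0 : ZMod m) * a := by
          linear_combination (i : ZMod m) * he0e
        rw [v2 _ hnz hz, e1]
      have h6 : φ' (a + (j : ZMod m) * (e : ZMod m)) = φ ((e0 : ZMod m) * a) := by
        rw [← hj'']
        exact v1 _ hea
      rw [← add_sum_erase _ _ (mem_range.mpr hj), h6,
        sum_congr rfl (fun i hi => h5 i (mem_of_mem_erase hi) (ne_of_mem_erase hi)), sum_const,
        card_erase_of_mem (mem_range.mpr hj), card_range, nsmul_eq_mul,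
        Nat.cast_sub hp.one_lt.le, Nat.cast_one, mul_div_cancel₀ _ hℓ1, v1 _ ha']
      have e2 : (p : ZMod m) * ((e0 : ZMod m) * a) = (p : ZMod m) * a := by
        linear_combination hkill
      rw [e2]
      ring
    · -- an old prime
      have hpM' : p ∣ M := by
        rcases (Nat.Prime.dvd_mul hp).mp hpM with h0 | h0
        · exact h0
        · exact absurd ((Nat.prime_dvd_prime_iff_eq hp hℓ).mp h0) hpl
      have hMe : (M : ZMod m) * (e : ZMod m) = 0 := dvd_mul_zero hpe hpM'
      have hshift : ∀ i : ℕ, (M : ZMod m) * (a + (i : ZMod m) * (e : ZMod m)) =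
          (M : ZMod m) * a := by
        intro i
        linear_combination (i : ZMod m) * hMe
      by_cases h1 : (M : ZMod m) * a = 0
      · rw [v1 ((p : ZMod m) * a) (by linear_combination (p : ZMod m) * h1),
          ← h.dist p e hp hpe hpM' a h1]
        exact sum_congr rfl fun i _ => v1 _ (by rw [hshift, h1])
      · have hcop : ℓ.Coprime p := (Nat.coprime_primes hℓ hp).mpr (Ne.symm hpl)
        have he0e : (e0 : ZMod m) * (e : ZMod m) = e := hmul _ hMe
        have ht : ∀ i ∈ range p, φ' (a + (i : ZMod m) * (e : ZMod m)) =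
            (φ ((ℓ : ZMod m) * ((e0 : ZMod m) * a) + (ℓ : ZMod m) * ((i : ZMod m) * (e : ZMod m))) -
              φ ((e0 : ZMod m) * a + (i : ZMod m) * (e : ZMod m))) / (ℓ - 1) := by
          intro i _
          have h0 : ((M * ℓ : ℕ) : ZMod m) * (a + (i : ZMod m) * (e : ZMod m)) = 0 := by
            have := ha
            push_cast at this ⊢
            linear_combination this + ((i : ZMod m) * ℓ) * hMe
          rw [v2 _ (by rw [hshift]; exact h1) h0]
          congr 3
          · linear_combination ((ℓ : ZMod m) * i) * he0e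
          · linear_combination (i : ZMod m) * he0e
        have hMℓe : (M : ZMod m) * ((ℓ : ZMod m) * ((e0 : ZMod m) * a)) = 0 := by
          linear_combination (ℓ : ZMod m) * hea
        have h4 : ¬ (M : ZMod m) * ((p : ZMod m) * a) = 0 := by
          intro h0
          apply h1
          have hA : ((M * ℓ : ℕ) : ZMod m) * a = 0 := ha
          have hB : ((M * p : ℕ) : ZMod m) * a = 0 := by
            push_cast
            linear_combination h0
          have := killed_gcd hA hB
          rwa [Nat.gcd_mul_left, hcop.gcd_eq_one, mul_one] at this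
        rw [sum_congr rfl ht, ← sum_div, sum_sub_distrib,
          coset_sum_coprime φ hpe hcop, h.dist p e hp hpe hpM' _ hMℓe,
          h.dist p e hp hpe hpM' _ hea, v2 _ h4 (by
            have := ha
            push_cast at this ⊢
            linear_combination (p : ZMod m) * this)]
        congr 3
        · ring
        · ring

/-- full extension -/
theorem PD.extend {M : ℕ} (hM : M ∣ m) : ∀ {φ : ZMod m → ℚ}, PD M D φ →
    ∃ φ' : ZMod m → ℚ, PD m D φ' ∧ ∀ a, (M : ZMod m) * a = 0 → φ' a = φ a := by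
  obtain ⟨k, hk⟩ := hM
  induction k using Nat.strong_induction_on generalizing M with
  | _ k ih =>
    intro φ h
    by_cases h1 : k = 1
    · subst h1
      rw [mul_one] at hk
      subst hk
      exact ⟨φ, h, fun _ _ => rfl⟩
    · have hk0 : k ≠ 0 := by rintro rfl; rw [mul_zero] at hk; exact NeZero.ne m hk
      obtain ⟨ℓ, hℓ, k', hk'⟩ := Nat.exists_prime_and_dvd h1
      have hMm : M * ℓ ∣ m := ⟨k', by rw [hk, hk', mul_assoc]⟩
      have hstep : ∃ φ' : ZMod m → ℚ, PD (M * ℓ) D φ' ∧ ∀ a, (M : ZMod m) * a = 0 → φ' a = φ a := by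
        by_cases h2 : ℓ ∣ M
        · exact h.ext_dvd hℓ h2
        · exact h.ext_not_dvd hℓ h2 hMm
      obtain ⟨φ1, hφ1, hφ1'⟩ := hstep
      have hk'0 : 0 < k' := Nat.pos_of_ne_zero (by rintro rfl; rw [mul_zero] at hk'; exact hk0 hk')
      obtain ⟨φ2, hφ2, hφ2'⟩ := ih k' (by
        rw [hk']; exact lt_mul_of_one_lt_left hk'0 hℓ.one_lt) (M := M * ℓ)
        (by rw [hk, hk', mul_assoc]) hφ1
      refine ⟨φ2, hφ2, fun a ha => ?_⟩
      rw [hφ2' a (by push_cast; linear_combination (ℓ : ZMod m) * ha), hφ1' a ha]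

lemma PD.oddDist (h : PD m D φ) : OddDist φ where
  neg := h.neg
  half := by
    intro a ha
    have h1 : -a = a := by linear_combination -ha
    have h2 := h.neg a
    rw [h1] at h2
    linarith
  dist := by
    intro p e hp hpe a
    exact h.dist p e hp hpe (Dvd.intro e hpe) a (by simp)

end Pool.Agent.Q59.FS
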