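import Mathlib

/-!
# Short functions on finite commutative groups with vanishing alternating box sums

`nrm P F` is the `ℓ¹` norm of `F` on the subgroup generated by the list `P` of subgroups (with
multiplicities, if the subgroups are not independent), `LB P F` says that all alternating sums of `F`
over boxes in this subgroup vanish, `ZZ P F` that `F` vanishes on it.
-/

namespace Pool.Agent.Q59.FS

open Finset

/-- the elements of a subgroup -/
noncomputable def KF {G : Type*} [Group G] [Finite G] (K : Subgroup G) : Finset G :=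
  (Set.toFinite (K : Set G)).toFinset

lemma mem_KF {G : Type*} [Group G] [Finite G] {K : Subgroup G} {κ : G} : κ ∈ KF K ↔ κ ∈ K := by
  simp [KF]

/-- the norm of `F` on the coset of one, for a list of subgroups -/
noncomputable def nrm {G : Type*} [CommGroup G] [Finite G] :
    List (Subgroup G) → (G → ℤ) → ℤ
  | [], F => |F 1|
  | K :: P, F => ∑ κ ∈ KF K, nrm P (fun v => F (v * κ))

/-- vanishing of the alternating box sums -/
def LB {G : Type*} [CommGroup G] : List (Subgroup G) → (G → ℤ) → Prop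
  | [], F => F 1 = 0
  | K :: P, F => ∀ κ ∈ K, ∀ κ' ∈ K, LB P (fun v => F (v * κ) - F (v * κ'))

/-- vanishing on the coset of one -/
def ZZ {G : Type*} [CommGroup G] : List (Subgroup G) → (G → ℤ) → Prop
  | [], F => F 1 = 0
  | K :: P, F => ∀ κ ∈ K, ZZ P (fun v => F (v * κ))

/-- the subgroup generated by the members of the list -/
def jn {G : Type*} [CommGroup G] : List (Subgroup G) → Subgroup G
  | [] => ⊥
  | K :: P => K ⊔ jn P

/-- independence of the subgroups in the list -/
def Ind {G : Type*} [CommGroup G] : List (Subgroup G) → Prop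
  | [] => True
  | K :: P => K ⊓ jn P = ⊥ ∧ Ind P

variable {G : Type*} [CommGroup G]

lemma ZZ.one {P : List (Subgroup G)} : ∀ {F : G → ℤ}, ZZ P F → F 1 = 0 := by
  induction P with
  | nil => exact fun h => h
  | cons K P ih =>
    intro F h
    have := ih (h 1 K.one_mem)
    simpa using this

lemma ZZ.sub {P : List (Subgroup G)} : ∀ {A B : G → ℤ}, ZZ P A → ZZ P B →
    ZZ P (fun v => A v - B v) := by
  induction P with
  | nil =>
    intro A B hA hB
    change A 1 - B 1 = 0
    rw [show A 1 = 0 from hA, show B 1 = 0 from hB, sub_zero]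
  | cons K P ih =>
    intro A B hA hB κ hκ
    exact ih (hA κ hκ) (hB κ hκ)

lemma LB.sub {P : List (Subgroup G)} : ∀ {A B : G → ℤ}, LB P A → LB P B →
    LB P (fun v => A v - B v) := by
  induction P with
  | nil =>
    intro A B hA hB
    change A 1 - B 1 = 0
    rw [show A 1 = 0 from hA, show B 1 = 0 from hB, sub_zero]
  | cons K P ih =>
    intro A B hA hB κ hκ κ' hκ'
    have := ih (hA κ hκ κ' hκ') (hB κ hκ κ' hκ')
    have e : (fun v => A (v * (κ : G)) - B (v * (κ : G)) - (A (v * (κ' : G)) - B (v * (κ' : G)))) =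
        fun v => A (v * (κ : G)) - A (v * (κ' : G)) - (B (v * (κ : G)) - B (v * (κ' : G))) := by
      funext v; ring
    rw [← e] at this
    exact this

lemma ZZ.lb {P : List (Subgroup G)} : ∀ {A : G → ℤ}, ZZ P A → LB P A := by
  induction P with
  | nil => exact fun h => h
  | cons K P ih =>
    intro A hA κ hκ κ' hκ'
    exact (ih (hA κ hκ)).sub (ih (hA κ' hκ'))

/-- values on the generated subgroup -/
lemma ZZ.of_forall {P : List (Subgroup G)} : ∀ {A : G → ℤ}, (∀ v ∈ jn P, A v = 0) → ZZ P A := by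
  induction P with
  | nil => exact fun h => h 1 (Subgroup.one_mem _)
  | cons K P ih =>
    intro A hA κ hκ
    refine ih fun v hv => hA _ ?_
    rw [mul_comm]
    exact Subgroup.mul_mem_sup hκ hv

lemma ZZ.forall {P : List (Subgroup G)} : ∀ {A : G → ℤ}, ZZ P A → ∀ v ∈ jn P, A v = 0 := by
  induction P with
  | nil =>
    intro A h v hv
    rw [show v = 1 from hv]
    exact h
  | cons K P ih =>
    intro A hA v hv
    obtain ⟨κ, hκ, w, hw, rfl⟩ := Subgroup.mem_sup.mp hv
    rw [mul_comm]
    exact ih (hA κ hκ) w hw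

lemma LB.congr {P : List (Subgroup G)} {A B : G → ℤ} (h : ∀ v ∈ jn P, A v = B v) (hA : LB P A) :
    LB P B := by
  have h1 : ZZ P (fun v => A v - B v) := ZZ.of_forall fun v hv => by rw [h v hv, sub_self]
  have h2 := hA.sub h1.lb
  have e : (fun v => A v - (A v - B v)) = B := by funext v; ring
  rwa [e] at h2

variable [Finite G]

lemma card_KF (K : Subgroup G) : (KF K).card = Nat.card K := by
  unfold KF
  rw [← Nat.card_eq_card_finite_toFinset]
  rfl

lemma nrm_nil (F : G → ℤ) : nrm [] F = |F 1| := rfl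

lemma nrm_cons (K : Subgroup G) (P : List (Subgroup G)) (F : G → ℤ) :
    nrm (K :: P) F = ∑ κ ∈ KF K, nrm P (fun v => F (v * κ)) := rfl

lemma nrm_nonneg (P : List (Subgroup G)) : ∀ F : G → ℤ, 0 ≤ nrm P F := by
  induction P with
  | nil => intro F; exact abs_nonneg _
  | cons K P ih => intro F; exact sum_nonneg fun κ _ => ih _

lemma nrm_eq_zero {P : List (Subgroup G)} : ∀ {F : G → ℤ}, nrm P F = 0 ↔ ZZ P F := by
  induction P with
  | nil => intro F; exact abs_eq_zero
  | cons K P ih =>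
    intro F
    rw [nrm_cons, sum_eq_zero_iff_of_nonneg fun κ _ => nrm_nonneg P _]
    exact ⟨fun h κ hκ => ih.mp (h κ (mem_KF.mpr hκ)), fun h κ hκ => ih.mpr (h κ (mem_KF.mp hκ))⟩

lemma nrm_sub_le {P : List (Subgroup G)} : ∀ (A B : G → ℤ),
    nrm P (fun v => A v - B v) ≤ nrm P A + nrm P B := by
  induction P with
  | nil => intro A B; exact abs_sub _ _
  | cons K P ih =>
    intro A B
    rw [nrm_cons, nrm_cons, nrm_cons, ← sum_add_distrib]
    exact sum_le_sum fun κ _ => ih _ _

lemma nrm_neg {P : List (Subgroup G)} : ∀ (A : G → ℤ),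
    nrm P (fun v => - A v) = nrm P A := by
  induction P with
  | nil => intro A; exact abs_neg _
  | cons K P ih =>
    intro A
    rw [nrm_cons, nrm_cons]
    exact sum_congr rfl fun κ _ => ih _

lemma nrm_sub_comm {P : List (Subgroup G)} (A B : G → ℤ) :
    nrm P (fun v => B v - A v) = nrm P (fun v => A v - B v) := by
  rw [← nrm_neg]
  congr 1
  funext v; ring

lemma nrm_le_sub {P : List (Subgroup G)} (A B : G → ℤ) :
    nrm P A ≤ nrm P (fun v => A v - B v) + nrm P B := by
  have h := nrm_sub_le (P := P) (fun v => A v - B v) (fun v => - B v)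
  rw [nrm_neg] at h
  have e : (fun v => A v - B v - - B v) = A := by funext v; ring
  rwa [e] at h

lemma nrm_eq_of_zz {P : List (Subgroup G)} {A B : G → ℤ} (h : ZZ P (fun v => A v - B v)) :
    nrm P A = nrm P B := by
  have h0 := nrm_eq_zero.mpr h
  have h1 := nrm_le_sub (P := P) A B
  have h2 := nrm_le_sub (P := P) B A
  rw [nrm_sub_comm] at h2
  omega

lemma nrm_congr {P : List (Subgroup G)} {A B : G → ℤ} (h : ∀ v ∈ jn P, A v = B v) :
    nrm P A = nrm P B :=
  nrm_eq_of_zz (ZZ.of_forall fun v hv => by rw [h v hv, sub_self])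

/-- a short function with vanishing box sums vanishes -/
theorem zz_of_lb {P : List (Subgroup G)} {ν : ℤ} : ∀ {F : G → ℤ}
    (_ : ∀ K ∈ P, ν ≤ Nat.card K), LB P F → nrm P F < ν → ZZ P F := by
  induction P with
  | nil => intro F _ h _; exact h
  | cons K P ih =>
    intro F hν hF hlt
    have hex : ∃ κ ∈ K, nrm P (fun v => F (v * κ)) = 0 := by
      by_contra hcon
      push Not at hcon
      have h1 : ∀ κ ∈ KF K, 1 ≤ nrm P (fun v => F (v * κ)) := by
        intro κ hκ
        have h2 := nrm_nonneg P (fun v => F (v * (κ : G)))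
        have h3 := hcon κ (mem_KF.mp hκ)
        omega
      have h4 : (Nat.card K : ℤ) ≤ nrm (K :: P) F := by
        rw [nrm_cons]
        calc (Nat.card K : ℤ) = ∑ κ ∈ KF K, (1 : ℤ) := by simp [card_KF]
          _ ≤ _ := sum_le_sum fun κ hκ => h1 κ hκ
      have h5 := hν K (List.mem_cons_self ..)
      omega
    obtain ⟨κ₀, hκ₀, h0⟩ := hex
    have hz0 := nrm_eq_zero.mp h0
    intro κ hκ
    have h1 := hF κ hκ κ₀ hκ₀
    have h2 : LB P (fun v => F (v * (κ : G))) := by
      refine h1.congr fun v hv => ?_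
      rw [hz0.forall v hv, sub_zero]
    refine ih (fun K' hK' => hν K' (List.mem_cons_of_mem _ hK')) h2 ?_
    refine lt_of_le_of_lt ?_ hlt
    rw [nrm_cons]
    exact single_le_sum (f := fun κ => nrm P (fun v => F (v * κ)))
      (fun κ _ => nrm_nonneg P _) (mem_KF.mpr hκ)

/-- the weight of the correction -/
def mu (n : ℕ) : ℤ := if Even n then 2 else 1

/-- two short slices agree -/
lemma good_agree {K : Subgroup G} {P : List (Subgroup G)} {ν : ℤ} {F : G → ℤ}
    (hν : ∀ K' ∈ P, ν ≤ Nat.card K') (hF : LB (K :: P) F) {κ κ' : G} (hκ : κ ∈ K) (hκ' : κ' ∈ K)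
    (h : 2 * nrm P (fun v => F (v * κ)) < ν) (h' : 2 * nrm P (fun v => F (v * κ')) < ν) :
    ZZ P (fun v => F (v * κ) - F (v * κ')) := by
  refine zz_of_lb hν (hF κ hκ κ' hκ') ?_
  have h1 := nrm_sub_le (P := P) (fun v => F (v * κ)) (fun v => F (v * κ'))
  omega

lemma exists_good {K : Subgroup G} {P : List (Subgroup G)} {ν : ℤ} {F : G → ℤ}
    (h : 2 * nrm (K :: P) F < Nat.card K * ν) :
    ∃ κ ∈ K, 2 * nrm P (fun v => F (v * κ)) < ν := by
  by_contra hcon
  push Not at hcon
  have h1 : (Nat.card K : ℤ) * ν ≤ 2 * nrm (K :: P) F := by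
    rw [nrm_cons, mul_sum]
    calc (Nat.card K : ℤ) * ν = ∑ κ ∈ KF K, ν := by simp [card_KF]
      _ ≤ _ := sum_le_sum fun κ hκ => hcon κ (mem_KF.mp hκ)
  omega

/-- **The majority lemma.** -/
theorem majority {K : Subgroup G} {P : List (Subgroup G)} {ν : ℤ} {F : G → ℤ}
    (hν : ∀ K' ∈ P, ν ≤ Nat.card K') (hF : LB (K :: P) F)
    (h : 2 * nrm (K :: P) F < Nat.card K * ν) {κ₀ : G} (hκ₀ : κ₀ ∈ K)
    (h₀ : 2 * nrm P (fun v => F (v * κ₀)) < ν) :
    ∑ κ ∈ KF K, nrm P (fun v => F (v * κ) - F (v * κ₀)) +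
      mu (Nat.card K) * nrm P (fun v => F (v * κ₀)) ≤ nrm (K :: P) F := by
  classical
  set d := nrm P (fun v => F (v * κ₀)) with hd
  have hd0 : 0 ≤ d := nrm_nonneg _ _
  set good := (KF K).filter (fun κ => ZZ P (fun v => F (v * κ) - F (v * κ₀))) with hgood
  set bad := (KF K).filter (fun κ => ¬ ZZ P (fun v => F (v * κ) - F (v * κ₀))) with hbad
  have hsplit : ∀ f : G → ℤ, ∑ κ ∈ KF K, f κ = ∑ κ ∈ good, f κ + ∑ κ ∈ bad, f κ := fun f =>
    (sum_filter_add_sum_filter_not _ _ _).symm
  have hcard : (good.card : ℤ) + bad.card = Nat.card K := by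
    have h1 := hsplit (fun _ => 1)
    simp only [sum_const, card_KF, nsmul_eq_mul, mul_one] at h1
    exact h1.symm
  -- good slices
  have hg1 : ∀ κ ∈ good, nrm P (fun v => F (v * κ)) = d := fun κ hκ =>
    nrm_eq_of_zz (mem_filter.mp hκ).2
  have hg2 : ∀ κ ∈ good, nrm P (fun v => F (v * κ) - F (v * κ₀)) = 0 := fun κ hκ =>
    nrm_eq_zero.mpr (mem_filter.mp hκ).2
  -- bad slices
  have hb1 : ∀ κ ∈ bad, ν - d ≤ nrm P (fun v => F (v * κ)) := by
    intro κ hκ
    obtain ⟨h1, h2⟩ := mem_filter.mp hκ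
    by_contra hcon
    push Not at hcon
    apply h2
    refine zz_of_lb hν (hF κ (mem_KF.mp h1) κ₀ hκ₀) ?_
    have h3 := nrm_sub_le (P := P) (fun v => F (v * κ)) (fun v => F (v * κ₀))
    omega
  have hb2 : ∀ κ ∈ bad, nrm P (fun v => F (v * κ) - F (v * κ₀)) ≤
      nrm P (fun v => F (v * κ)) + d := fun κ _ => nrm_sub_le _ _
  have hN : nrm (K :: P) F = ∑ κ ∈ good, nrm P (fun v => F (v * κ)) +
      ∑ κ ∈ bad, nrm P (fun v => F (v * κ)) := by
    rw [nrm_cons]; exact hsplit _
  have hN1 : ∑ κ ∈ good, nrm P (fun v => F (v * κ)) = good.card * d := by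
    rw [sum_congr rfl hg1, sum_const, nsmul_eq_mul]
  have hN2 : bad.card * (ν - d) ≤ ∑ κ ∈ bad, nrm P (fun v => F (v * κ)) := by
    rw [← nsmul_eq_mul, ← sum_const]
    exact sum_le_sum hb1
  -- majority
  have hmaj : (bad.card : ℤ) < good.card := by
    by_contra hcon
    push Not at hcon
    have h1 : 2 * (good.card * d + bad.card * (ν - d)) ≤ 2 * nrm (K :: P) F := by
      rw [hN, hN1]; linarith
    have h2 : (Nat.card K : ℤ) * ν = (good.card + bad.card) * ν := by rw [hcard]
    have h3 : ((bad.card : ℤ) - good.card) * (2 * d) ≤ (bad.card - good.card) * ν :=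
      mul_le_mul_of_nonneg_left h₀.le (by linarith)
    nlinarith
  have hmu : mu (Nat.card K) ≤ good.card - bad.card := by
    unfold mu
    split_ifs with he
    · obtain ⟨k, hk⟩ := he
      have h1 : (good.card : ℤ) + bad.card = k + k := by rw [hcard, hk]; push_cast; ring
      omega
    · omega
  have hS : ∑ κ ∈ KF K, nrm P (fun v => F (v * κ) - F (v * κ₀)) ≤
      ∑ κ ∈ bad, nrm P (fun v => F (v * κ)) + bad.card * d := by
    rw [hsplit, sum_congr rfl hg2, sum_const_zero, zero_add]
    calc _ ≤ ∑ κ ∈ bad, (nrm P (fun v => F (v * κ)) + d) := sum_le_sum hb2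
      _ = _ := by rw [sum_add_distrib, sum_const, nsmul_eq_mul]
  have hmd : mu (Nat.card K) * d ≤ (good.card - bad.card) * d :=
    mul_le_mul_of_nonneg_right hmu hd0
  rw [hN, hN1]
  linarith

end Pool.Agent.Q59.FS
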