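import Pool.Agent.Q59.FS.Grp

/-!
# Short functions on finite commutative groups: the common short slice
-/

namespace Pool.Agent.Q59.FS

open Finset

variable {G : Type*} [CommGroup G]

/-- translation -/
def TT (u : G) (F : G → ℤ) : G → ℤ := fun v => F (u * v)

lemma TT_apply (u : G) (F : G → ℤ) (v : G) : TT u F v = F (u * v) := rfl

lemma slice_eq (u κ : G) (F : G → ℤ) : (fun v => TT u F (v * κ)) = TT (u * κ) F := by
  funext v
  unfold TT
  rw [mul_comm v κ, mul_assoc]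

section Fin

variable [Finite G]

lemma nrm_cons_TT (K : Subgroup G) (P : List (Subgroup G)) (u : G) (F : G → ℤ) :
    nrm (K :: P) (TT u F) = ∑ κ ∈ KF K, nrm P (TT (u * κ) F) := by
  rw [nrm_cons]
  exact sum_congr rfl fun κ _ => by rw [slice_eq]

lemma sum_KF_mul {K : Subgroup G} {κ' : G} (h : κ' ∈ K) (f : G → ℤ) :
    ∑ κ ∈ KF K, f (κ' * κ) = ∑ κ ∈ KF K, f κ := by
  refine sum_bij (fun κ _ => κ' * κ) ?_ ?_ ?_ ?_
  · intro κ hκ
    exact mem_KF.mpr (K.mul_mem h (mem_KF.mp hκ))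
  · intro a _ b _ hab
    exact mul_left_cancel hab
  · intro κ hκ
    exact ⟨κ'⁻¹ * κ, mem_KF.mpr (K.mul_mem (K.inv_mem h) (mem_KF.mp hκ)), by simp⟩
  · intro κ _
    rfl

lemma nrm_TT_jn {P : List (Subgroup G)} : ∀ (u v : G) (F : G → ℤ), v ∈ jn P →
    nrm P (TT (u * v) F) = nrm P (TT u F) := by
  induction P with
  | nil =>
    intro u v F hv
    rw [show v = 1 from hv, mul_one]
  | cons K P ih =>
    intro u v F hv
    obtain ⟨κ', hκ', w, hw, rfl⟩ := Subgroup.mem_sup.mp hv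
    rw [nrm_cons_TT, nrm_cons_TT, ← sum_KF_mul hκ' (fun κ => nrm P (TT (u * κ) F))]
    refine sum_congr rfl fun κ _ => ?_
    rw [← ih (u * (κ' * κ)) w F hw]
    congr 2
    rw [mul_assoc, mul_assoc, mul_assoc, mul_assoc, mul_comm w κ]

lemma nrm_le_sum {P : List (Subgroup G)} (hP : Ind P) : ∀ F : G → ℤ,
    nrm P F ≤ ∑ v ∈ KF (jn P), |F v| := by
  classical
  induction P with
  | nil =>
    intro F
    rw [nrm_nil]
    exact single_le_sum (f := fun v => |F v|) (fun _ _ => abs_nonneg _)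
      (mem_KF.mpr (Subgroup.one_mem _))
  | cons K P ih =>
    intro F
    rw [nrm_cons]
    have h1 : ∀ κ ∈ KF K, nrm P (fun v => F (v * κ)) ≤ ∑ v ∈ KF (jn P), |F (v * κ)| :=
      fun κ _ => ih hP.2 _
    refine (sum_le_sum h1).trans ?_
    rw [← sum_product' (KF K) (KF (jn P)) (fun κ v => |F (v * κ)|)]
    have hinj : Set.InjOn (fun x : G × G => x.2 * x.1) (KF K ×ˢ KF (jn P) : Finset (G × G)) := by
      rintro ⟨a, b⟩ hab ⟨a', b'⟩ hab' h
      simp only [coe_product, Set.mem_prod, mem_coe, mem_KF] at hab hab' h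
      have h2 : a * a'⁻¹ = b' * b⁻¹ := by
        have : b * a = b' * a' := h
        rw [eq_mul_inv_iff_mul_eq, mul_assoc, mul_comm a'⁻¹ b, ← mul_assoc, mul_inv_eq_iff_eq_mul,
          mul_comm a b]
        exact this
      have h3 : a * a'⁻¹ ∈ K ⊓ jn P :=
        ⟨K.mul_mem hab.1 (K.inv_mem hab'.1),
          h2 ▸ (jn P).mul_mem hab'.2 ((jn P).inv_mem hab.2)⟩
      rw [hP.1, Subgroup.mem_bot] at h3
      have h4 : a = a' := by rwa [mul_inv_eq_one] at h3
      rw [h3] at h2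
      have h5 : b = b' := by
        have := h2.symm
        rw [mul_inv_eq_one] at this
        exact this.symm
      rw [h4, h5]
    rw [← sum_image (g := fun x : G × G => x.2 * x.1) (f := fun w => |F w|) hinj]
    refine sum_le_sum_of_subset_of_nonneg ?_ (fun _ _ _ => abs_nonneg _)
    intro w hw
    obtain ⟨⟨a, b⟩, hab, rfl⟩ := mem_image.mp hw
    rw [mem_product] at hab
    rw [mem_KF]
    change b * a ∈ K ⊔ jn P
    rw [mul_comm]
    exact Subgroup.mul_mem_sup (mem_KF.mp hab.1) (mem_KF.mp hab.2)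

end Fin

variable [Fintype G]

lemma nrm_TT_le {P : List (Subgroup G)} (hP : Ind P) (u : G) (F : G → ℤ) :
    nrm P (TT u F) ≤ ∑ v, |F v| := by
  refine (nrm_le_sum hP _).trans ?_
  rw [← Fintype.sum_equiv (Equiv.mulLeft u) (fun v => |TT u F v|) (fun v => |F v|)
    (fun v => rfl)]
  exact sum_le_sum_of_subset_of_nonneg (subset_univ _) (fun _ _ _ => abs_nonneg _)

/-- the product of the orders -/
noncomputable def pc : List (Subgroup G) → ℤ
  | [] => 1
  | K :: P => Nat.card K * pc P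

omit [Fintype G] in
lemma pc_pos [Finite G] (P : List (Subgroup G)) : 0 < pc P := by
  induction P with
  | nil => exact one_pos
  | cons K P ih =>
    have : 0 < Nat.card K := Nat.card_pos
    unfold pc
    positivity

lemma sum_nrm (P : List (Subgroup G)) (F : G → ℤ) : ∑ u, nrm P (TT u F) = pc P * ∑ u, |F u| := by
  induction P with
  | nil =>
    unfold pc
    rw [one_mul]
    exact sum_congr rfl fun u _ => by rw [nrm_nil, TT_apply, mul_one]
  | cons K P ih =>
    have h1 : ∀ u, nrm (K :: P) (TT u F) = ∑ κ ∈ KF K, nrm P (TT (u * κ) F) :=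
      fun u => nrm_cons_TT K P u F
    rw [sum_congr rfl fun u _ => h1 u, sum_comm]
    have h2 : ∀ κ ∈ KF K, ∑ u, nrm P (TT (u * κ) F) = pc P * ∑ u, |F u| := by
      intro κ _
      rw [← ih]
      exact Fintype.sum_equiv (Equiv.mulRight κ) _ _ fun u => rfl
    rw [sum_congr rfl h2, sum_const, card_KF, nsmul_eq_mul,
      show pc (K :: P) = Nat.card K * pc P from rfl]
    ring

open scoped Classical in
/-- the common value of the short slices -/
noncomputable def hh (K : Subgroup G) (P : List (Subgroup G)) (ν : ℤ) (F : G → ℤ) (u : G) : ℤ :=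
  if h : ∃ κ ∈ K, 2 * nrm P (TT (u * κ) F) < ν then F (u * h.choose) else 0

section Hyp

variable {K : Subgroup G} {P : List (Subgroup G)} {ν : ℤ} {F : G → ℤ}

lemma hh_eq (hν : ∀ K' ∈ P, ν ≤ Nat.card K') (hLB : ∀ u, LB (K :: P) (TT u F)) {u κ : G}
    (hκ : κ ∈ K) (h : 2 * nrm P (TT (u * κ) F) < ν) : hh K P ν F u = F (u * κ) := by
  have hex : ∃ κ ∈ K, 2 * nrm P (TT (u * κ) F) < ν := ⟨κ, hκ, h⟩
  unfold hh
  rw [dif_pos hex]
  obtain ⟨h1, h2⟩ := hex.choose_spec
  have h3 := (good_agree hν (hLB u) h1 hκ (by rw [slice_eq]; exact h2)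
    (by rw [slice_eq]; exact h)).one
  simp only [TT_apply, one_mul] at h3
  exact sub_eq_zero.mp h3

lemma ex_good (hsm : ∀ u, 2 * nrm (K :: P) (TT u F) < Nat.card K * ν) (u : G) :
    ∃ κ ∈ K, 2 * nrm P (TT (u * κ) F) < ν := by
  obtain ⟨κ, h1, h2⟩ := exists_good (hsm u)
  rw [slice_eq] at h2
  exact ⟨κ, h1, h2⟩

lemma hh_mul_K (hν : ∀ K' ∈ P, ν ≤ Nat.card K') (hLB : ∀ u, LB (K :: P) (TT u F))
    (hsm : ∀ u, 2 * nrm (K :: P) (TT u F) < Nat.card K * ν) {u κ' : G} (h' : κ' ∈ K) :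
    hh K P ν F (u * κ') = hh K P ν F u := by
  obtain ⟨κ, hκ, h⟩ := ex_good hsm (u * κ')
  rw [hh_eq hν hLB hκ h]
  rw [mul_assoc] at h ⊢
  rw [hh_eq hν hLB (K.mul_mem h' hκ) h]

lemma hh_mul_jn (hν : ∀ K' ∈ P, ν ≤ Nat.card K') (hLB : ∀ u, LB (K :: P) (TT u F))
    {u κ v : G} (hκ : κ ∈ K) (h : 2 * nrm P (TT (u * κ) F) < ν) (hv : v ∈ jn P) :
    hh K P ν F (u * v) = F (u * v * κ) := by
  apply hh_eq hν hLB hκ
  rw [mul_right_comm, nrm_TT_jn _ _ _ hv]
  exact h

lemma hh_odd (hν : ∀ K' ∈ P, ν ≤ Nat.card K') (hLB : ∀ u, LB (K :: P) (TT u F))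
    (hsm : ∀ u, 2 * nrm (K :: P) (TT u F) < Nat.card K * ν) {c : G}
    (hc : ∀ u, F (c * u) = - F u) (u : G) : hh K P ν F (c * u) = - hh K P ν F u := by
  obtain ⟨κ, hκ, h⟩ := ex_good hsm u
  have e : TT (c * u * κ) F = fun v => - TT (u * κ) F v := by
    funext v
    rw [TT_apply, TT_apply, ← hc]
    congr 1
    simp only [mul_assoc]
  rw [hh_eq hν hLB hκ h, hh_eq hν hLB hκ (by rw [e, nrm_neg]; exact h), ← hc]
  congr 1
  simp only [mul_assoc]

/-- **The gain** from removing the common short slice. -/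
theorem gain (hν : ∀ K' ∈ P, ν ≤ Nat.card K') (hLB : ∀ u, LB (K :: P) (TT u F))
    (hsm : ∀ u, 2 * nrm (K :: P) (TT u F) < Nat.card K * ν) :
    Nat.card K * ∑ u, |F u - hh K P ν F u| + mu (Nat.card K) * ∑ u, |hh K P ν F u| ≤
      Nat.card K * ∑ u, |F u| := by
  have key : ∀ u, nrm (K :: P) (TT u (fun v => F v - hh K P ν F v)) +
      mu (Nat.card K) * nrm P (TT u (hh K P ν F)) ≤ nrm (K :: P) (TT u F) := by
    intro u
    obtain ⟨κ₀, hκ₀, h0⟩ := ex_good hsm u
    have h1 := majority hν (hLB u) (hsm u) hκ₀ (by rw [slice_eq]; exact h0)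
    have e1 : nrm (K :: P) (TT u (fun v => F v - hh K P ν F v)) =
        ∑ κ ∈ KF K, nrm P (fun v => TT u F (v * κ) - TT u F (v * κ₀)) := by
      rw [nrm_cons]
      refine sum_congr rfl fun κ hκ => nrm_congr fun v hv => ?_
      simp only [TT_apply]
      rw [← mul_assoc, hh_mul_K hν hLB hsm (mem_KF.mp hκ), hh_mul_jn hν hLB hκ₀ h0 hv, mul_assoc,
        mul_assoc]
    have e2 : nrm P (TT u (hh K P ν F)) = nrm P (fun v => TT u F (v * κ₀)) := by
      refine nrm_congr fun v hv => ?_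
      simp only [TT_apply]
      rw [hh_mul_jn hν hLB hκ₀ h0 hv, mul_assoc]
    rw [e1, e2]
    exact h1
  have h2 := sum_le_sum fun u (_ : u ∈ univ) => key u
  rw [sum_add_distrib, ← mul_sum, sum_nrm, sum_nrm, sum_nrm] at h2
  have h3 : pc (K :: P) = Nat.card K * pc P := rfl
  rw [h3] at h2
  have h4 := pc_pos P
  by_contra hcon
  push Not at hcon
  have h5 := mul_lt_mul_of_pos_left hcon h4
  nlinarith

/-- If there is no common slice, the box sums without the first direction vanish. -/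
theorem lb_of_hh_zero (hν : ∀ K' ∈ P, ν ≤ Nat.card K') (hLB : ∀ u, LB (K :: P) (TT u F))
    (hsm : ∀ u, 2 * nrm (K :: P) (TT u F) < Nat.card K * ν)
    (h0 : ∀ u, hh K P ν F u = 0) (u : G) : LB P (TT u F) := by
  obtain ⟨κ₀, hκ₀, h1⟩ := ex_good hsm u
  have h2 := hLB u 1 K.one_mem κ₀ hκ₀
  refine h2.congr fun v hv => ?_
  have h3 := hh_mul_jn hν hLB hκ₀ h1 hv
  rw [h0] at h3
  simp only [TT_apply, mul_one]
  rw [← mul_assoc, ← h3, sub_zero]

end Hyp

end Pool.Agent.Q59.FS
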