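import Pool.Agent.Q59.FS.Lev

/-!
# The kernels of the reductions of the unit groups
-/

namespace Pool.Agent.Q59.FS

open Finset Pool.Agent.H916R2

/-- the units fixing `n` -/
def KL (d n : ℕ) : Subgroup (ZMod d)ˣ where
  carrier := {u | (n : ZMod d) * (u : ZMod d) = n}
  mul_mem' := by
    intro a b ha hb
    simp only [Set.mem_setOf_eq] at ha hb ⊢
    rw [Units.val_mul, ← mul_assoc, ha, hb]
  one_mem' := by simp
  inv_mem' := by
    intro a ha
    simp only [Set.mem_setOf_eq] at ha ⊢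
    have h1 : (n : ZMod d) * (a : ZMod d) * ((a⁻¹ : (ZMod d)ˣ) : ZMod d) =
        (n : ZMod d) * ((a⁻¹ : (ZMod d)ˣ) : ZMod d) := by rw [ha]
    rw [mul_assoc, Units.mul_inv, mul_one] at h1
    exact h1.symm

lemma mem_KL {d n : ℕ} {u : (ZMod d)ˣ} : u ∈ KL d n ↔ (n : ZMod d) * (u : ZMod d) = n := Iff.rfl

lemma KL_le_mul (d a b : ℕ) : KL d a ≤ KL d (a * b) := by
  intro u hu
  rw [mem_KL] at hu ⊢
  push_cast
  rw [mul_right_comm, hu]

lemma KL_one (d : ℕ) : KL d 1 = ⊥ := by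
  rw [eq_bot_iff]
  intro u hu
  rw [mem_KL, Nat.cast_one, one_mul] at hu
  exact Subgroup.mem_bot.mpr (Units.ext hu)

lemma KL_inf {d a b : ℕ} (hab : a.Coprime b) : KL d a ⊓ KL d b = ⊥ := by
  rw [eq_bot_iff]
  rintro u ⟨h1, h2⟩
  rw [Subgroup.mem_bot]
  apply Units.ext
  have h1' : (a : ZMod d) * ((u : ZMod d) - 1) = 0 := by
    rw [mul_sub, mul_one, sub_eq_zero]; exact h1
  have h2' : (b : ZMod d) * ((u : ZMod d) - 1) = 0 := by
    rw [mul_sub, mul_one, sub_eq_zero]; exact h2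
  have h3 := Nat.gcd_eq_gcd_ab a b
  rw [Nat.Coprime.gcd_eq_one hab] at h3
  have h4 : (1 : ZMod d) = (a : ZMod d) * ((a.gcdA b : ℤ) : ZMod d) +
      (b : ZMod d) * ((a.gcdB b : ℤ) : ZMod d) := by
    have := congrArg (fun z : ℤ => (z : ZMod d)) h3
    push_cast at this
    exact this
  have h5 : (u : ZMod d) - 1 = 0 := by
    calc (u : ZMod d) - 1 = 1 * ((u : ZMod d) - 1) := (one_mul _).symm
      _ = ((a : ZMod d) * ((a.gcdA b : ℤ) : ZMod d) +
          (b : ZMod d) * ((a.gcdB b : ℤ) : ZMod d)) * ((u : ZMod d) - 1) := by rw [← h4]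
      _ = ((a.gcdA b : ℤ) : ZMod d) * ((a : ZMod d) * ((u : ZMod d) - 1)) +
          ((a.gcdB b : ℤ) : ZMod d) * ((b : ZMod d) * ((u : ZMod d) - 1)) := by ring
      _ = 0 := by rw [h1', h2']; ring
  rw [Units.val_one]
  exact sub_eq_zero.mp h5

lemma jn_KL_le (d : ℕ) (L : List ℕ) : jn (L.map (KL d)) ≤ KL d L.prod := by
  induction L with
  | nil =>
    rw [List.map_nil, List.prod_nil]
    exact bot_le
  | cons a L ih =>
    rw [List.map_cons, List.prod_cons]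
    refine sup_le (KL_le_mul d a _) (ih.trans ?_)
    rw [mul_comm]
    exact KL_le_mul d _ _

lemma ind_KL (d : ℕ) {L : List ℕ} (hL : ∀ p ∈ L, p.Prime) (hnd : L.Nodup) :
    Ind (L.map (KL d)) := by
  induction L with
  | nil => exact trivial
  | cons a L ih =>
    rw [List.map_cons]
    refine ⟨?_, ih (fun p hp => hL p (List.mem_cons_of_mem _ hp)) (List.nodup_cons.mp hnd).2⟩
    have h1 : a.Coprime L.prod := by
      rw [Nat.Prime.coprime_iff_not_dvd (hL a (List.mem_cons_self ..))]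
      intro h
      obtain ⟨p, hp, hap⟩ := (Nat.Prime.prime (hL a (List.mem_cons_self ..))).dvd_prod_iff.mp h
      have h2 : a = p := (Nat.prime_dvd_prime_iff_eq (hL a (List.mem_cons_self ..))
        (hL p (List.mem_cons_of_mem _ hp))).mp hap
      exact (List.nodup_cons.mp hnd).1 (h2 ▸ hp)
    rw [eq_bot_iff, ← KL_inf h1]
    exact inf_le_inf_left _ (jn_KL_le d L)

section Card

variable {ℓ d' d : ℕ}

lemma KL_eq_KK (hℓ : 0 < ℓ) (h : ℓ * d' = d) : KL d ℓ = KK h := by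
  have hdvd : d' ∣ d := Dvd.intro_left ℓ h
  ext u
  rw [mem_KL, mem_KK]
  have e : (((u : ZMod d).val : ℕ) : ZMod d) = u ∨ d = 0 := by
    rcases Nat.eq_zero_or_pos d with h0 | h0
    · exact Or.inr h0
    · haveI : NeZero d := ⟨h0.ne'⟩
      exact Or.inl (ZMod.natCast_zmod_val _)
  obtain ⟨z, hz⟩ := ZMod.intCast_surjective (u : ZMod d)
  have h1 : (ℓ : ZMod d) * (u : ZMod d) = ℓ ↔ (d : ℤ) ∣ ℓ * z - ℓ := by
    rw [← hz, ← ZMod.intCast_zmod_eq_zero_iff_dvd]
    push_cast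
    rw [sub_eq_zero]
  have h2 : ZMod.unitsMap hdvd u = 1 ↔ (d' : ℤ) ∣ z - 1 := by
    rw [Units.ext_iff, unitsMap_coe, Units.val_one, ← hz, map_intCast,
      ← ZMod.intCast_zmod_eq_zero_iff_dvd]
    push_cast
    rw [sub_eq_zero]
  rw [h1, h2, ← h]
  push_cast
  have h3 : (ℓ : ℤ) * z - ℓ = ℓ * (z - 1) := by ring
  rw [h3]
  exact mul_dvd_mul_iff_left (by exact_mod_cast hℓ.ne')

lemma card_KK [NeZero d] (h : ℓ * d' = d) :
    Nat.card (KK h) * Nat.totient d' = Nat.totient d := by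
  haveI : NeZero d' := ⟨by rintro rfl; rw [mul_zero] at h; exact NeZero.ne d h.symm⟩
  have hsurj : Function.Surjective (ZMod.unitsMap (Dvd.intro_left ℓ h)) :=
    ZMod.unitsMap_surjective (Dvd.intro_left ℓ h)
  have h1 := Subgroup.card_eq_card_quotient_mul_card_subgroup (KK h)
  have h2 : Nat.card ((ZMod d)ˣ ⧸ KK h) = Nat.card (ZMod d')ˣ :=
    Nat.card_congr (QuotientGroup.quotientKerEquivOfSurjective _ hsurj).toEquiv
  rw [h2, Nat.card_eq_fintype_card, Nat.card_eq_fintype_card (α := (ZMod d')ˣ),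
    ZMod.card_units_eq_totient, ZMod.card_units_eq_totient] at h1
  rw [h1, mul_comm]

lemma card_KK_dvd [NeZero d] (hℓ : ℓ.Prime) (h : ℓ * d' = d) (hd : ℓ ∣ d') :
    Nat.card (KK h) = ℓ := by
  have h1 := card_KK h
  have h3 : 0 < d' := Nat.pos_of_ne_zero (by rintro rfl; rw [mul_zero] at h; exact NeZero.ne d h.symm)
  have h2 : Nat.totient d = ℓ * Nat.totient d' := by
    rw [← h]; exact Nat.totient_mul_of_prime_of_dvd hℓ hd
  rw [h2] at h1
  exact Nat.eq_of_mul_eq_mul_right (Nat.totient_pos.mpr h3) h1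

lemma card_KK_not_dvd [NeZero d] (hℓ : ℓ.Prime) (h : ℓ * d' = d) (hd : ¬ ℓ ∣ d') :
    Nat.card (KK h) = ℓ - 1 := by
  have h1 := card_KK h
  have h3 : 0 < d' := Nat.pos_of_ne_zero (by rintro rfl; rw [mul_zero] at h; exact NeZero.ne d h.symm)
  have h2 : Nat.totient d = (ℓ - 1) * Nat.totient d' := by
    rw [← h]; exact Nat.totient_mul_of_prime_of_not_dvd hℓ hd
  rw [h2] at h1
  exact Nat.eq_of_mul_eq_mul_right (Nat.totient_pos.mpr h3) h1

end Card

end Pool.Agent.Q59.FS
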