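import Pool.Agent.H916K.Level
import Pool.Agent.Q59.FS.Grp2

/-!
# The elements of order `d` in `ZMod m`
-/

namespace Pool.Agent.Q59.FS

open Finset Pool.Agent.H916R2

section Basic

variable {m R d : ℕ}

/-- the embedding as an additive homomorphism -/
def iotaHom [NeZero d] (h : R * d = m) : ZMod d →+ ZMod m where
  toFun := iota R
  map_zero' := iota_zero
  map_add' := iota_add h

lemma iota_inj [NeZero d] [NeZero m] (h : R * d = m) {a b : ZMod d}
    (hab : (iota R a : ZMod m) = iota R b) : a = b := by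
  have h1 : (iota R (a - b) : ZMod m) = 0 := by
    have : (iota R (a - b) : ZMod m) = iotaHom h (a - b) := rfl
    rw [this, map_sub]
    exact sub_eq_zero.mpr hab
  exact sub_eq_zero.mp (iota_eq_zero h h1)

lemma addOrderOf_iota [NeZero d] [NeZero m] (h : R * d = m) (b : ZMod d) :
    addOrderOf (iota R b : ZMod m) = addOrderOf b :=
  addOrderOf_injective (iotaHom h) (fun _ _ hab => iota_inj h hab) b

lemma addOrderOf_unit [NeZero d] (u : (ZMod d)ˣ) : addOrderOf (u : ZMod d) = d := by
  have h1 : ((u : ZMod d).val : ZMod d) = u := ZMod.natCast_zmod_val _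
  rw [← h1, ZMod.addOrderOf_coe _ (NeZero.ne d), Nat.Coprime.gcd_eq_one, Nat.div_one]
  exact (ZMod.val_coe_unit_coprime u).symm

lemma addOrderOf_iota_unit [NeZero d] [NeZero m] (h : R * d = m) (u : (ZMod d)ˣ) :
    addOrderOf (iota R (u : ZMod d) : ZMod m) = d := by
  rw [addOrderOf_iota h, addOrderOf_unit]

lemma exists_unit [NeZero d] [NeZero m] (h : R * d = m) {a : ZMod m} (ha : addOrderOf a = d) :
    ∃ u : (ZMod d)ˣ, (iota R (u : ZMod d) : ZMod m) = a := by
  have hd : 0 < d := NeZero.pos d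
  have h1 : ((d * a.val : ℕ) : ZMod m) = 0 := by
    push_cast
    rw [ZMod.natCast_zmod_val, ← nsmul_eq_mul, ← ha]
    exact addOrderOf_nsmul_eq_zero a
  rw [ZMod.natCast_eq_zero_iff] at h1
  have h1' : d * R ∣ d * a.val := by rw [mul_comm d R, h]; exact h1
  obtain ⟨x, hx⟩ := Nat.dvd_of_mul_dvd_mul_left hd h1'
  have h2 : (iota R ((x : ℕ) : ZMod d) : ZMod m) = a := by
    rw [iota_natCast h, ← hx, ZMod.natCast_zmod_val]
  have h3 := addOrderOf_iota h ((x : ℕ) : ZMod d)
  rw [h2, ha, ZMod.addOrderOf_coe _ (NeZero.ne d)] at h3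
  have h4 : Nat.gcd d x = 1 := by
    have h5 : Nat.gcd d x ∣ d := Nat.gcd_dvd_left _ _
    have h6 : d / Nat.gcd d x * Nat.gcd d x = d := Nat.div_mul_cancel h5
    rw [← h3] at h6
    exact Nat.eq_of_mul_eq_mul_left hd (by rw [h6, mul_one])
  exact ⟨ZMod.unitOfCoprime x (Nat.coprime_comm.mp h4), by rw [ZMod.coe_unitOfCoprime]; exact h2⟩

/-- sums over the elements of order `d` -/
lemma sum_order [NeZero d] [NeZero m] (h : R * d = m) {Q : Type*} [AddCommMonoid Q]
    (g : ZMod m → Q) :
    ∑ a ∈ univ.filter (fun a : ZMod m => addOrderOf a = d), g a =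
      ∑ u : (ZMod d)ˣ, g (iota R (u : ZMod d)) := by
  symm
  refine sum_bij (fun u _ => iota R (u : ZMod d)) ?_ ?_ ?_ ?_
  · intro u _
    exact mem_filter.mpr ⟨mem_univ _, addOrderOf_iota_unit h u⟩
  · intro u _ v _ huv
    exact Units.ext (iota_inj h huv)
  · intro a ha
    obtain ⟨u, hu⟩ := exists_unit h (mem_filter.mp ha).2
    exact ⟨u, mem_univ _, hu⟩
  · intro _ _
    rfl

end Basic

section Coset

variable {m R d ℓ d' : ℕ}

/-- the units congruent to one modulo `d'` -/
def KK (h : ℓ * d' = d) : Subgroup (ZMod d)ˣ := (ZMod.unitsMap (Dvd.intro_left ℓ h)).ker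

lemma mem_KK {h : ℓ * d' = d} {u : (ZMod d)ˣ} :
    u ∈ KK h ↔ ZMod.unitsMap (Dvd.intro_left ℓ h) u = 1 := MonoidHom.mem_ker

lemma unitsMap_coe (hdvd : d' ∣ d) (u : (ZMod d)ˣ) :
    ((ZMod.unitsMap hdvd u : (ZMod d')ˣ) : ZMod d') = ZMod.castHom hdvd (ZMod d') (u : ZMod d) := rfl

lemma cast_iota [NeZero d'] [NeZero d] (h : ℓ * d' = d) (b : ZMod d') :
    ZMod.castHom (Dvd.intro_left ℓ h) (ZMod d') (iota ℓ b : ZMod d) = (ℓ : ZMod d') * b := by
  unfold iota
  rw [map_natCast]
  push_cast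
  rw [ZMod.natCast_zmod_val]

lemma isUnit_of_cast [NeZero d] (hℓ : ℓ.Prime) (h : ℓ * d' = d) (w : ZMod d)
    (h1 : IsUnit (ZMod.castHom (Dvd.intro_left ℓ h) (ZMod d') w)) (h2 : ¬ ℓ ∣ w.val) :
    IsUnit w := by
  have e : ((w.val : ℕ) : ZMod d) = w := ZMod.natCast_zmod_val w
  rw [← e, map_natCast, ZMod.isUnit_iff_coprime] at h1
  rw [← e, ZMod.isUnit_iff_coprime]
  have h3 : w.val.Coprime (ℓ * d') :=
    Nat.Coprime.mul_right ((Nat.coprime_comm.mp ((Nat.Prime.coprime_iff_not_dvd hℓ).mpr h2))) h1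
  exact h ▸ h3

/-- **The coset decomposition.** -/
theorem coset_decomp [NeZero m] [NeZero d] [NeZero d'] (hR : R * d = m) (hℓ : ℓ.Prime)
    (h : ℓ * d' = d) {Q : Type*} [AddCommGroup Q] (f : ZMod m → Q) (u : (ZMod d)ˣ) :
    ∑ i ∈ range ℓ, f (iota R (u : ZMod d) + (i : ZMod m) * ((R * d' : ℕ) : ZMod m)) =
      ∑ κ ∈ KF (KK h), f (iota R ((u * κ : (ZMod d)ˣ) : ZMod d)) +
        if hc : ℓ.Coprime d' then
          f (iota (R * ℓ) (((ZMod.unitOfCoprime ℓ hc)⁻¹ *
            ZMod.unitsMap (Dvd.intro_left ℓ h) u : (ZMod d')ˣ) : ZMod d'))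
        else 0 := by
  classical
  set π := ZMod.castHom (Dvd.intro_left ℓ h) (ZMod d') with hπ
  -- the fibre
  set Fib : Finset (ZMod d) := univ.filter (fun w => π w = π u) with hFib
  have h1 : ∑ i ∈ range ℓ, f (iota R (u : ZMod d) + (i : ZMod m) * ((R * d' : ℕ) : ZMod m)) =
      ∑ w ∈ Fib, f (iota R w) := by
    refine sum_bij (fun i _ => (u : ZMod d) + (i : ZMod d) * (d' : ZMod d)) ?_ ?_ ?_ ?_
    · intro i _
      refine mem_filter.mpr ⟨mem_univ _, ?_⟩
      rw [map_add, map_mul, map_natCast, map_natCast]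
      simp
    · intro i hi j hj hij
      have h2 : (i : ZMod d) * (d' : ZMod d) = (j : ZMod d) * (d' : ZMod d) := add_left_cancel hij
      have h3 : ((i * d' : ℕ) : ZMod d) = ((j * d' : ℕ) : ZMod d) := by push_cast; exact h2
      rw [ZMod.natCast_eq_natCast_iff', Nat.mod_eq_of_lt, Nat.mod_eq_of_lt] at h3
      · exact Nat.eq_of_mul_eq_mul_right (NeZero.pos d') h3
      · rw [← h]; exact Nat.mul_lt_mul_of_pos_right (mem_range.mp hj) (NeZero.pos d')
      · rw [← h]; exact Nat.mul_lt_mul_of_pos_right (mem_range.mp hi) (NeZero.pos d')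
    · intro w hw
      have h2 : π (w - u) = 0 := by
        rw [map_sub, sub_eq_zero]
        exact (mem_filter.mp hw).2
      have h3 : ((w - u : ZMod d).val : ZMod d') = 0 := by
        have e : (((w - u : ZMod d).val : ℕ) : ZMod d) = w - u := ZMod.natCast_zmod_val _
        rw [← e, map_natCast] at h2
        exact h2
      rw [ZMod.natCast_eq_zero_iff] at h3
      obtain ⟨i, hi⟩ := h3
      refine ⟨i, ?_, ?_⟩
      · rw [mem_range]
        have h4 := ZMod.val_lt (w - u : ZMod d)
        rw [hi, ← h, mul_comm ℓ] at h4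
        exact Nat.lt_of_mul_lt_mul_left h4
      · have e : (((w - u : ZMod d).val : ℕ) : ZMod d) = w - u := ZMod.natCast_zmod_val _
        rw [hi] at e
        push_cast at e
        rw [mul_comm (d' : ZMod d)] at e
        rw [e]; ring
    · intro i _
      congr 1
      have e1 : (iota R ((u : ZMod d) + (i : ZMod d) * (d' : ZMod d)) : ZMod m) =
          iota R (u : ZMod d) + iota R ((i : ZMod d) * (d' : ZMod d)) := iota_add hR _ _
      rw [e1]
      congr 1
      have e2 : (i : ZMod d) * (d' : ZMod d) = ((i * d' : ℕ) : ZMod d) := by push_cast; rfl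
      rw [e2, iota_natCast hR]
      push_cast; ring
  rw [h1, ← sum_filter_add_sum_filter_not Fib (fun w => IsUnit w)]
  congr 1
  · -- units
    symm
    refine sum_bij (fun κ _ => ((u * κ : (ZMod d)ˣ) : ZMod d)) ?_ ?_ ?_ ?_
    · intro κ hκ
      refine mem_filter.mpr ⟨mem_filter.mpr ⟨mem_univ _, ?_⟩, Units.isUnit _⟩
      have h2 := mem_KK.mp (mem_KF.mp hκ)
      have h3 : π (κ : ZMod d) = 1 := by
        have := congrArg (fun x : (ZMod d')ˣ => (x : ZMod d')) h2
        simp only [Units.val_one] at this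
        rw [unitsMap_coe] at this
        exact this
      rw [Units.val_mul, map_mul, h3, mul_one]
    · intro κ _ κ' _ hh
      exact mul_left_cancel (Units.ext hh)
    · intro w hw
      obtain ⟨hw1, w', hw'⟩ := mem_filter.mp hw
      refine ⟨u⁻¹ * w', ?_, ?_⟩
      · rw [mem_KF, mem_KK, map_mul, map_inv, inv_mul_eq_one]
        apply Units.ext
        rw [unitsMap_coe, unitsMap_coe, hw']
        exact (mem_filter.mp hw1).2.symm
      · rw [mul_inv_cancel_left, hw']
    · intro _ _
      rfl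
  · -- non-units
    split_ifs with hc
    · set v : (ZMod d')ˣ := (ZMod.unitOfCoprime ℓ hc)⁻¹ * ZMod.unitsMap (Dvd.intro_left ℓ h) u
        with hv
      have hv1 : (ℓ : ZMod d') * (v : ZMod d') = π (u : ZMod d) := by
        have h2 : ZMod.unitOfCoprime ℓ hc * v = ZMod.unitsMap (Dvd.intro_left ℓ h) u := by
          rw [hv, mul_inv_cancel_left]
        have h3 := congrArg (fun x : (ZMod d')ˣ => (x : ZMod d')) h2
        simp only [Units.val_mul, ZMod.coe_unitOfCoprime] at h3
        rw [h3, unitsMap_coe]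
      have hset : Fib.filter (fun w => ¬ IsUnit w) = {(iota ℓ (v : ZMod d') : ZMod d)} := by
        ext w
        rw [mem_filter, mem_singleton, mem_filter]
        constructor
        · rintro ⟨⟨_, h2⟩, h3⟩
          have h4 : ℓ ∣ w.val := by
            by_contra hcon
            apply h3
            apply isUnit_of_cast hℓ h w _ hcon
            rw [← hπ, h2]
            exact (Units.isUnit u).map π
          obtain ⟨y, hy⟩ := h4
          have h5 : w = iota ℓ ((y : ℕ) : ZMod d') := by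
            rw [iota_natCast h, ← hy, ZMod.natCast_zmod_val]
          rw [h5] at h2 ⊢
          rw [cast_iota h, ← hv1] at h2
          have h6 : IsUnit (ℓ : ZMod d') := (ZMod.isUnit_iff_coprime _ _).mpr hc
          rw [h6.mul_left_cancel h2]
        · rintro rfl
          refine ⟨⟨mem_univ _, ?_⟩, ?_⟩
          · rw [cast_iota h, hv1]
          · intro h2
            have h3 : ((ℓ * (v : ZMod d').val : ℕ) : ZMod d) = iota ℓ (v : ZMod d') := rfl
            rw [← h3, ZMod.isUnit_iff_coprime, ← h] at h2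
            have h4 : ℓ ∣ Nat.gcd (ℓ * (v : ZMod d').val) (ℓ * d') :=
              Nat.dvd_gcd (dvd_mul_right _ _) (dvd_mul_right _ _)
            rw [h2] at h4
            exact hℓ.one_lt.ne' (Nat.dvd_one.mp h4)
      rw [hset, sum_singleton, iota_comp hR]
    · apply sum_eq_zero
      intro w hw
      exfalso
      obtain ⟨h2, h3⟩ := mem_filter.mp hw
      have h4 := (mem_filter.mp h2).2
      have h5 : IsUnit (π w) := by rw [h4]; exact (Units.isUnit u).map π
      have h6 : ℓ ∣ d' := by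
        by_contra hcon
        exact hc ((Nat.Prime.coprime_iff_not_dvd hℓ).mpr hcon)
      apply h3
      apply isUnit_of_cast hℓ h w h5
      intro h7
      have e : ((w.val : ℕ) : ZMod d) = w := ZMod.natCast_zmod_val w
      rw [← e, hπ, map_natCast, ZMod.isUnit_iff_coprime] at h5
      have h8 : ℓ ∣ Nat.gcd w.val d' := Nat.dvd_gcd h7 h6
      rw [h5] at h8
      exact hℓ.one_lt.ne' (Nat.dvd_one.mp h8)

end Coset

end Pool.Agent.Q59.FS
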