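import Pool.Agent.Q59.FS.Move

/-!
# Short relations are consequences of the distribution relations
-/

namespace Pool.Agent.Q59.FS

open Finset Pool.Agent.H916R2

/-- `4` for the prime `2`, the prime itself otherwise -/
def pp (p : ℕ) : ℕ := if p = 2 then 4 else p

/-- `2` for the prime `2`, `p - 1` otherwise -/
def nn (p : ℕ) : ℕ := if p = 2 then 2 else p - 1

/-- the weight of an order -/
def wo (n : ℕ) : ℤ := if n % 4 = 2 then 2 else 1

/-- the weight of an order, for two primes -/
def om (p q n : ℕ) : ℤ := if pp p * pp q ∣ n then wo n else 0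

lemma wo_pos (n : ℕ) : 0 < wo n := by unfold wo; split_ifs <;> norm_num

lemma wo_le (n : ℕ) : wo n ≤ 2 := by unfold wo; split_ifs <;> norm_num

lemma om_nonneg (p q n : ℕ) : 0 ≤ om p q n := by
  unfold om
  split_ifs
  · exact (wo_pos n).le
  · exact le_rfl

section Card

variable {d ℓ d' : ℕ} [NeZero d]

lemma pp_dvd (hd : d % 4 ≠ 2) (hℓd : ℓ ∣ d) : pp ℓ ∣ d := by
  unfold pp
  split_ifs with h
  · subst h; omega
  · exact hℓd

lemma pp_coprime {p q : ℕ} (hp : p.Prime) (hq : q.Prime) (hpq : p ≠ q) : (pp p).Coprime (pp q) := by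
  have h := (Nat.coprime_primes hp hq).mpr hpq
  unfold pp
  split_ifs with h1 h2 h2
  · exact absurd (h1.trans h2.symm) hpq
  · subst h1
    exact Nat.Coprime.pow_left 2 h
  · subst h2
    exact Nat.Coprime.pow_right 2 h
  · exact h

lemma card_KL_ge (hd : d % 4 ≠ 2) (hℓ : ℓ.Prime) (hℓd : ℓ ∣ d) : nn ℓ ≤ Nat.card (KL d ℓ) := by
  obtain ⟨d', h⟩ := hℓd
  rw [KL_eq_KK hℓ.pos h.symm]
  unfold nn
  by_cases h1 : ℓ ∣ d'
  · rw [card_KK_dvd hℓ h.symm h1]
    split_ifs with h2
    · exact h2.ge
    · omega
  · rw [card_KK_not_dvd hℓ h.symm h1]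
    split_ifs with h2
    · subst h2
      exfalso
      apply hd
      omega
    · exact le_rfl

lemma weight_ineq (hd : d % 4 ≠ 2) (hℓ : ℓ.Prime) (h : ℓ * d' = d) (p q : ℕ) :
    om p q d' * (if ℓ ∣ d' then 1 else 2) ≤ om p q d * mu (Nat.card (KK h)) := by
  have hmu : 1 ≤ mu (Nat.card (KK h)) := by unfold mu; split_ifs <;> norm_num
  unfold om
  by_cases h1 : pp p * pp q ∣ d'
  · have h2 : pp p * pp q ∣ d := h1.trans (Dvd.intro_left ℓ h)
    rw [if_pos h1, if_pos h2]
    have h3 : wo d = 1 := by unfold wo; rw [if_neg hd]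
    rw [h3, one_mul]
    by_cases hℓ2 : ℓ = 2
    · subst hℓ2
      have h4 : 2 ∣ d' := by omega
      rw [if_pos h4, card_KK_dvd hℓ h h4, mul_one]
      exact (wo_le d').trans (by unfold mu; norm_num)
    · have hodd : ℓ % 2 = 1 := (hℓ.eq_two_or_odd).resolve_left hℓ2
      have h4 : wo d' = 1 := by
        unfold wo
        rw [if_neg]
        intro h5
        apply hd
        rw [← h, Nat.mul_mod, h5]
        have : ℓ % 4 = 1 ∨ ℓ % 4 = 3 := by omega
        rcases this with h6 | h6 <;> rw [h6]
      rw [h4, one_mul]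
      split_ifs with h5
      · exact hmu
      · rw [card_KK_not_dvd hℓ h h5]
        have : Even (ℓ - 1) := by rw [Nat.even_iff]; omega
        unfold mu
        rw [if_pos this]
  · rw [if_neg h1, zero_mul]
    exact mul_nonneg (by split_ifs; exacts [(wo_pos d).le, le_rfl]) (by linarith)

end Card

section Ind

variable {m : ℕ} [NeZero m]

/-- the size in the induction -/
noncomputable def Phi (x : ZMod m → ℤ) : ℤ := ∑ a, ((addOrderOf a : ℤ) ^ 2) * |od x a|

lemma Phi_nonneg (x : ZMod m → ℤ) : 0 ≤ Phi x :=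
  sum_nonneg fun a _ => mul_nonneg (by positivity) (abs_nonneg _)

/-- the weighted norms -/
noncomputable def NN (x : ZMod m → ℤ) (p q : ℕ) : ℤ := ∑ a, om p q (addOrderOf a) * |od x a|

/-- all odd distributions vanish on `x` -/
def Kill (x : ZMod m → ℤ) : Prop :=
  ∀ (Q : Type) [AddCommGroup Q] (c : ZMod m → Q), OddDist c → ∑ a, x a • c a = 0

lemma rel_of_eq {x y : ZMod m → ℤ} (hx : Rel x)
    (h : ∀ (Q : Type) [AddCommGroup Q] (c : ZMod m → Q), OddDist c →
      ∑ a, y a • c a = ∑ a, x a • c a) : Rel y := by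
  intro t
  have h1 := h ℤ (fun a => saw ((t : ZMod m) * a)) ⟨fun a => ?_, fun a ha => ?_,
    fun p e _ hpe a => saw_dist_unit hpe t a⟩
  · have h2 := hx t
    simp only [smul_eq_mul] at h1
    rw [h1, h2]
  · rw [mul_neg]; exact saw_neg _
  · have h2 : saw (-((t : ZMod m) * a)) = - saw ((t : ZMod m) * a) := saw_neg _
    have h3 : -((t : ZMod m) * a) = (t : ZMod m) * a := by linear_combination (-(t : ZMod m)) * ha
    rw [h3] at h2
    change saw ((t : ZMod m) * a) = 0
    omega

theorem kill_of_short : ∀ (n : ℕ) (x : ZMod m → ℤ), (Phi x).toNat = n → Rel x →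
    (∀ p q : ℕ, p.Prime → q.Prime → p ≠ q → 2 * NN x p q < nn p * nn q) → Kill x := by
  classical
  intro n
  induction n using Nat.strong_induction_on with
  | _ n ih =>
    intro x hn hx hsm
    -- consequence of the induction hypothesis
    have step : ∀ y : ZMod m → ℤ, (∀ (Q : Type) [AddCommGroup Q] (c : ZMod m → Q), OddDist c →
        ∑ a, y a • c a = ∑ a, x a • c a) → Phi y < Phi x → (∀ p q, NN y p q ≤ NN x p q) →
        Kill x := by
      intro y hy1 hy2 hy3 Q _ c hc
      rw [← hy1 Q c hc]
      refine ih (Phi y).toNat ?_ y rfl (rel_of_eq hx hy1) ?_ Q c hc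
      · rw [← hn]
        have := Phi_nonneg y
        omega
      · intro p q hp hq hpq
        exact lt_of_le_of_lt (by linarith [hy3 p q]) (hsm p q hp hq hpq)
    by_cases hzero : ∀ a, od x a = 0
    · intro Q _ c hc
      refine even_kill (fun a => ?_) hc
      have := hzero a
      unfold od at this
      omega
    push Not at hzero
    -- the largest order in the support
    obtain ⟨a1, ha1⟩ := hzero
    obtain ⟨a0, ha0, hmax⟩ := exists_max_image (univ.filter fun a : ZMod m => od x a ≠ 0)
      (fun a => addOrderOf a) ⟨a1, mem_filter.mpr ⟨mem_univ _, ha1⟩⟩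
    have ha0' : od x a0 ≠ 0 := (mem_filter.mp ha0).2
    obtain ⟨d, hd⟩ : ∃ d, d = addOrderOf a0 := ⟨_, rfl⟩
    have hdpos : 0 < d := by rw [hd]; exact addOrderOf_pos a0
    have : NeZero d := ⟨hdpos.ne'⟩
    have htop : ∀ a, od x a ≠ 0 → addOrderOf a ≤ d := fun a ha => by
      rw [hd]; exact hmax a (mem_filter.mpr ⟨mem_univ _, ha⟩)
    obtain ⟨R, hR0⟩ : d ∣ m := by
      rw [hd]
      have := addOrderOf_dvd_card (x := a0)
      rwa [ZMod.card] at this
    have hR : R * d = m := by rw [hR0, mul_comm]
    obtain ⟨F, hF⟩ : ∃ F : (ZMod d)ˣ → ℤ,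
        F = fun u : (ZMod d)ˣ => od x (iota R (u : ZMod d)) := ⟨_, rfl⟩
    have hFodd : ∀ u, F (-u) = - F u := by
      intro u; rw [hF]; simp only; rw [Units.val_neg, iota_neg hR, od_neg]
    obtain ⟨u0, hu0⟩ := exists_unit hR hd.symm
    have hFne : F u0 ≠ 0 := by rw [hF]; simp only; rw [hu0]; exact ha0'
    -- application of the move
    have hmove : ∀ (ℓ d' : ℕ) (hℓ : ℓ.Prime) (h : ℓ * d' = d) (k : (ZMod d)ˣ → ℤ) (μ : ℤ),
        0 < μ → (∃ u, k u ≠ 0) →
        (∀ κ ∈ KK h, ∀ u, k (u * κ) = k u) → (∀ u, k (-u) = - k u) →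
        (Nat.card (KK h) * ∑ u, |F u - k u| + μ * ∑ u, |k u| ≤ Nat.card (KK h) * ∑ u, |F u|) →
        (∀ p q, om p q d' * (if ℓ ∣ d' then 1 else 2) ≤ om p q d * μ) → Kill x := by
      intro ℓ d' hℓ h k μ hμ hne hK hodd hgain hw
      have hd'0 : 0 < d' := Nat.pos_of_ne_zero (by rintro rfl; rw [mul_zero] at h; omega)
      have : NeZero d' := ⟨hd'0.ne'⟩
      obtain ⟨y, A, h1, h2, h3⟩ := move hR hℓ h x hK hodd
      have hcard : 0 < (Nat.card (KK h) : ℤ) := by exact_mod_cast Nat.card_pos
      have hApos : 0 < A := by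
        obtain ⟨v, hv⟩ := hne
        have h4 : 0 < ∑ u, |k u| :=
          sum_pos' (fun _ _ => abs_nonneg _) ⟨v, mem_univ _, abs_pos.mpr hv⟩
        rw [← h2] at h4
        exact (pos_iff_pos_of_mul_pos h4).mp hcard
      have hdrop : μ * A ≤ ∑ u : (ZMod d)ˣ, |od x (iota R (u : ZMod d))| -
            ∑ u : (ZMod d)ˣ, |od x (iota R (u : ZMod d)) - k u| := by
        rw [← h2] at hgain
        have h4 : (Nat.card (KK h) : ℤ) * (μ * A) ≤
            Nat.card (KK h) * (∑ u, |F u| - ∑ u, |F u - k u|) := by linarith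
        have h5 := le_of_mul_le_mul_left h4 hcard
        rw [hF] at h5
        exact h5
      refine step y h1 ?_ ?_
      · have h4 := h3 (fun n => (n : ℤ) ^ 2) (fun n => by positivity)
        have h5 : (d : ℤ) ^ 2 * (μ * A) ≤ (d : ℤ) ^ 2 * (∑ u : (ZMod d)ˣ, |od x (iota R (u : ZMod d))| -
            ∑ u : (ZMod d)ˣ, |od x (iota R (u : ZMod d)) - k u|) :=
          mul_le_mul_of_nonneg_left hdrop (by positivity)
        have h6 : (d' : ℤ) ^ 2 * ((if ℓ ∣ d' then 1 else 2) * A) < (d : ℤ) ^ 2 * (μ * A) := by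
          have h7 : ((if ℓ ∣ d' then 1 else 2 : ℤ)) ≤ 2 := by split_ifs <;> norm_num
          have h8 : (d : ℤ) = ℓ * d' := by exact_mod_cast h.symm
          have h9 : (2 : ℤ) ≤ ℓ := by exact_mod_cast hℓ.two_le
          have h10 : 0 < (d' : ℤ) := by exact_mod_cast hd'0
          have h11 : 0 < (d' : ℤ) ^ 2 * A := by positivity
          have h12 : (4 : ℤ) ≤ (ℓ : ℤ) ^ 2 := by nlinarith
          have h13 : (4 : ℤ) ≤ (ℓ : ℤ) ^ 2 * μ := by nlinarith
          rw [h8]
          calc (d' : ℤ) ^ 2 * ((if ℓ ∣ d' then 1 else 2) * A) =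
                (if ℓ ∣ d' then 1 else 2) * ((d' : ℤ) ^ 2 * A) := by ring
            _ ≤ 2 * ((d' : ℤ) ^ 2 * A) := mul_le_mul_of_nonneg_right h7 h11.le
            _ < 4 * ((d' : ℤ) ^ 2 * A) := by linarith
            _ ≤ ((ℓ : ℤ) ^ 2 * μ) * ((d' : ℤ) ^ 2 * A) := mul_le_mul_of_nonneg_right h13 h11.le
            _ = _ := by ring
        unfold Phi
        linarith
      · intro p q
        have h4 := h3 (om p q) (om_nonneg p q)
        have h5 : om p q d * (μ * A) ≤ om p q d * (∑ u : (ZMod d)ˣ, |od x (iota R (u : ZMod d))| -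
            ∑ u : (ZMod d)ˣ, |od x (iota R (u : ZMod d)) - k u|) :=
          mul_le_mul_of_nonneg_left hdrop (om_nonneg p q d)
        have h6 := mul_le_mul_of_nonneg_right (hw p q) hApos.le
        unfold NN
        linarith
    by_cases hd4 : d % 4 = 2
    · -- the case of twice an odd number
      have h : 2 * (d / 2) = d := by omega
      have hnd : ¬ 2 ∣ d / 2 := by omega
      have hcard : Nat.card (KK h) = 1 := by rw [card_KK_not_dvd Nat.prime_two h hnd]
      refine hmove 2 (d / 2) Nat.prime_two h F 1 one_pos ⟨u0, hFne⟩ ?_ hFodd ?_ ?_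
      · intro κ hκ u
        have : KK h = ⊥ := Subgroup.card_eq_one.mp hcard
        rw [this, Subgroup.mem_bot] at hκ
        rw [hκ, mul_one]
      · rw [hcard]; simp
      · intro p q
        rw [if_neg hnd, mul_one]
        unfold om
        by_cases h1 : pp p * pp q ∣ d / 2
        · rw [if_pos h1, if_pos (h1.trans (Dvd.intro_left 2 h))]
          unfold wo
          rw [if_pos hd4, if_neg (by omega)]
          norm_num
        · rw [if_neg h1, zero_mul]
          split_ifs
          · exact (wo_pos d).le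
          · exact le_rfl
    · -- the main case
      have chain : ∀ P : List ℕ, P.Nodup → (∀ ℓ ∈ P, ℓ.Prime ∧ ℓ ∣ d) →
          (∀ u, LB (P.map (KL d)) (TT u F)) → Kill x := by
        intro P
        induction P with
        | nil =>
          intro _ _ hLB
          exfalso
          have h1 : TT u0 F 1 = 0 := hLB u0
          rw [TT_apply, mul_one] at h1
          exact hFne h1
        | cons ℓ P ihP =>
          intro hnd hP hLB
          obtain ⟨hℓ, hℓd⟩ := hP ℓ (List.mem_cons_self ..)
          obtain ⟨d', hd'⟩ := hℓd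
          have hind : Ind ((ℓ :: P).map (KL d)) := ind_KL d (fun p hp => (hP p hp).1) hnd
          have hcardpos : 0 < (Nat.card (KL d ℓ) : ℤ) := by exact_mod_cast Nat.card_pos
          obtain ⟨ν, hν1, hν2⟩ : ∃ ν : ℤ, (∀ K' ∈ P.map (KL d), ν ≤ Nat.card K') ∧
              ∀ u, 2 * nrm (KL d ℓ :: P.map (KL d)) (TT u F) < Nat.card (KL d ℓ) * ν := by
            by_cases hPe : P = []
            · refine ⟨2 * ∑ v, |F v| + 1, ?_, fun u => ?_⟩
              · rw [hPe]; intro K' hK'; exact absurd hK' List.not_mem_nil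
              · have h1 : nrm (KL d ℓ :: P.map (KL d)) (TT u F) ≤ ∑ v, |F v| := nrm_TT_le hind u F
                have h2 : 0 ≤ ∑ v, |F v| := sum_nonneg fun _ _ => abs_nonneg _
                nlinarith
            · obtain ⟨q, hq, hqmin⟩ : ∃ q ∈ P, ∀ r ∈ P, nn q ≤ nn r := by
                have hne : P.toFinset.Nonempty := by
                  rw [List.toFinset_nonempty_iff]; exact hPe
                obtain ⟨q, hq, hq'⟩ := exists_min_image P.toFinset nn hne
                exact ⟨q, List.mem_toFinset.mp hq, fun r hr => hq' r (List.mem_toFinset.mpr hr)⟩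
              obtain ⟨hqp, hqd⟩ := hP q (List.mem_cons_of_mem _ hq)
              have hne : ℓ ≠ q := by
                rintro rfl
                exact (List.nodup_cons.mp hnd).1 hq
              refine ⟨nn q, ?_, fun u => ?_⟩
              · intro K' hK'
                obtain ⟨r, hr, rfl⟩ := List.mem_map.mp hK'
                obtain ⟨hrp, hrd⟩ := hP r (List.mem_cons_of_mem _ hr)
                have h1 := hqmin r hr
                have h2 := card_KL_ge hd4 hrp hrd
                exact_mod_cast h1.trans h2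
              · have h1 : nrm (KL d ℓ :: P.map (KL d)) (TT u F) ≤ ∑ v, |F v| := nrm_TT_le hind u F
                have h2 : ∑ v, |F v| ≤ NN x ℓ q := by
                  have h3 : ∑ v, |F v| = ∑ a ∈ univ.filter (fun a : ZMod m => addOrderOf a = d),
                      om ℓ q (addOrderOf a) * |od x a| := by
                    rw [sum_order hR]
                    refine sum_congr rfl fun v _ => ?_
                    rw [addOrderOf_iota_unit hR, hF]
                    have h4 : om ℓ q d = 1 := by
                      unfold om wo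
                      rw [if_pos ((pp_coprime hℓ hqp hne).mul_dvd_of_dvd_of_dvd
                        (pp_dvd hd4 ⟨d', hd'⟩) (pp_dvd hd4 hqd)), if_neg hd4]
                    rw [h4, one_mul]
                  rw [h3]
                  unfold NN
                  exact sum_le_sum_of_subset_of_nonneg (filter_subset _ _)
                    (fun a _ _ => mul_nonneg (om_nonneg _ _ _) (abs_nonneg _))
                have h3 := hsm ℓ q hℓ hqp hne
                have h4 : (nn ℓ : ℤ) ≤ Nat.card (KL d ℓ) := by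
                  exact_mod_cast card_KL_ge hd4 hℓ ⟨d', hd'⟩
                have h5 : (nn ℓ : ℤ) * nn q ≤ Nat.card (KL d ℓ) * nn q :=
                  mul_le_mul_of_nonneg_right h4 (by positivity)
                linarith
          set k := hh (KL d ℓ) (P.map (KL d)) ν F with hk
          have hLB' : ∀ u, LB (KL d ℓ :: P.map (KL d)) (TT u F) := hLB
          by_cases hk0 : ∀ u, k u = 0
          · refine ihP (List.nodup_cons.mp hnd).2 (fun p hp => hP p (List.mem_cons_of_mem _ hp)) ?_
            exact fun u => lb_of_hh_zero hν1 hLB' hν2 hk0 u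
          · push Not at hk0
            have hKK : KL d ℓ = KK hd'.symm := KL_eq_KK hℓ.pos hd'.symm
            have hg := gain hν1 hLB' hν2
            refine hmove ℓ d' hℓ hd'.symm k (mu (Nat.card (KK hd'.symm))) ?_ hk0 ?_ ?_ ?_ ?_
            · unfold mu; split_ifs <;> norm_num
            · intro κ hκ u
              rw [← hKK] at hκ
              exact hh_mul_K hν1 hLB' hν2 hκ
            · intro u
              have := hh_odd hν1 hLB' hν2 (c := -1) (fun u => by rw [neg_one_mul, hFodd]) u
              rw [neg_one_mul] at this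
              exact this
            · rw [← hKK]
              exact hg
            · intro p q
              exact weight_ineq hd4 hℓ hd'.symm p q
      refine chain d.primeFactorsList.dedup (List.nodup_dedup _) ?_ ?_
      · intro ℓ hℓ
        rw [List.mem_dedup] at hℓ
        exact ⟨Nat.prime_of_mem_primeFactorsList hℓ, Nat.dvd_of_mem_primeFactorsList hℓ⟩
      · intro u
        have := top_LB hR hx htop (L := d.primeFactorsList.dedup) (fun ℓ hℓ hℓd => by
          rw [List.mem_dedup]
          exact (Nat.mem_primeFactorsList hdpos.ne').mpr ⟨hℓ, hℓd⟩) u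
        rw [hF]
        exact this

end Ind

end Pool.Agent.Q59.FS
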