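import Pool.Agent.Q59.FS.Rel

/-!
# Moving a function down to a smaller order
-/

namespace Pool.Agent.Q59.FS

open Finset Pool.Agent.H916R2

section Push

variable {m : ℕ} [NeZero m] {ι : Type*} [Fintype ι]

open scoped Classical in
/-- push forward -/
noncomputable def push (g : ι → ZMod m) (h : ι → ℤ) : ZMod m → ℤ := fun a =>
  ∑ i, if g i = a then h i else 0

lemma push_sum (g : ι → ZMod m) (h : ι → ℤ) {Q : Type*} [AddCommGroup Q] (c : ZMod m → Q) :
    ∑ a, push g h a • c a = ∑ i, h i • c (g i) := by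
  classical
  unfold push
  simp only [sum_smul]
  rw [sum_comm]
  refine sum_congr rfl fun i _ => ?_
  rw [sum_eq_single (g i)]
  · rw [if_pos rfl]
  · intro a _ ha
    rw [if_neg (fun h => ha h.symm), zero_smul]
  · intro h; exact absurd (mem_univ _) h

lemma push_norm (g : ι → ZMod m) (h : ι → ℤ) {W : ZMod m → ℤ} (hW : ∀ a, 0 ≤ W a) :
    ∑ a, W a * |push g h a| ≤ ∑ i, W (g i) * |h i| := by
  classical
  have h1 : ∀ a, W a * |push g h a| ≤ ∑ i, if g i = a then W (g i) * |h i| else 0 := by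
    intro a
    calc W a * |push g h a| ≤ W a * ∑ i, |if g i = a then h i else 0| :=
          mul_le_mul_of_nonneg_left (abs_sum_le_sum_abs _ _) (hW a)
      _ = ∑ i, if g i = a then W (g i) * |h i| else 0 := by
          rw [mul_sum]
          refine sum_congr rfl fun i _ => ?_
          split_ifs with h0
          · rw [h0]
          · rw [abs_zero, mul_zero]
  refine (sum_le_sum fun a _ => h1 a).trans (le_of_eq ?_)
  rw [sum_comm]
  exact sum_congr rfl fun i _ => by simp

/-- the positive part -/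
def posP {α : Type*} (h : α → ℤ) : α → ℤ := fun a => max (h a) 0

lemma posP_sub {α : Type*} {h : α → ℤ} {a b : α} (hab : h b = - h a) :
    posP h a - posP h b = h a := by
  unfold posP
  rw [hab]
  omega

lemma od_push [Neg ι] (g : ι → ZMod m) (h : ι → ℤ) (e : ι ≃ ι) (hg : ∀ i, g (e i) = - g i)
    (hh : ∀ i, h (e i) = - h i) (a : ZMod m) : od (push g (posP h)) a = push g h a := by
  classical
  unfold od push
  have h1 : ∑ i, (if g i = -a then posP h i else 0) = ∑ i, if g i = a then posP h (e i) else 0 := by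
    symm
    refine Fintype.sum_equiv e _ _ fun i => ?_
    rw [hg]
    simp only [neg_inj]
  rw [h1, ← sum_sub_distrib]
  refine sum_congr rfl fun i _ => ?_
  split_ifs
  · exact posP_sub (hh i)
  · rfl

end Push

section Even

variable {m : ℕ} [NeZero m]

lemma even_kill {y : ZMod m → ℤ} (hy : ∀ a, y (-a) = y a) {Q : Type*} [AddCommGroup Q]
    {c : ZMod m → Q} (hc : OddDist c) : ∑ a, y a • c a = 0 := by
  classical
  refine sum_involution (fun a _ => -a) ?_ ?_ ?_ ?_
  · intro a _
    rw [hy, hc.neg, smul_neg, add_neg_cancel]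
  · intro a _ ha h
    apply ha
    have h1 : a + a = 0 := by linear_combination -h
    rw [hc.half a h1, smul_zero]
  · intro a _; exact mem_univ _
  · intro a _; exact neg_neg a

lemma od_kill {x y : ZMod m → ℤ} (h : ∀ a, od x a = od y a) {Q : Type*} [AddCommGroup Q]
    {c : ZMod m → Q} (hc : OddDist c) : ∑ a, x a • c a = ∑ a, y a • c a := by
  have h1 : ∑ a, (x a - y a) • c a = 0 := by
    refine even_kill (fun a => ?_) hc
    have := h a
    unfold od at this
    omega
  simp only [sub_smul] at h1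
  rw [sum_sub_distrib, sub_eq_zero] at h1
  exact h1

end Even

section Fiber

variable {m R d ℓ d' : ℕ} [NeZero m] [NeZero d] [NeZero d']

/-- a section of the reduction -/
noncomputable def sec (h : ℓ * d' = d) : (ZMod d')ˣ → (ZMod d)ˣ :=
  Function.surjInv (ZMod.unitsMap_surjective (Dvd.intro_left ℓ h))

lemma sec_spec (h : ℓ * d' = d) (v : (ZMod d')ˣ) :
    ZMod.unitsMap (Dvd.intro_left ℓ h) (sec h v) = v :=
  Function.surjInv_eq (ZMod.unitsMap_surjective (Dvd.intro_left ℓ h)) v

lemma fiber_sum (h : ℓ * d' = d) {Q : Type*} [AddCommMonoid Q] (f : (ZMod d)ˣ → Q) :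
    ∑ u, f u = ∑ v : (ZMod d')ˣ, ∑ κ ∈ KF (KK h), f (sec h v * κ) := by
  classical
  rw [← sum_fiberwise univ (fun u => ZMod.unitsMap (Dvd.intro_left ℓ h) u) f]
  refine sum_congr rfl fun v _ => ?_
  symm
  refine sum_bij (fun κ _ => sec h v * κ) ?_ ?_ ?_ ?_
  · intro κ hκ
    refine mem_filter.mpr ⟨mem_univ _, ?_⟩
    rw [map_mul, sec_spec, mem_KK.mp (mem_KF.mp hκ), mul_one]
  · intro a _ b _ hab
    exact mul_left_cancel hab
  · intro u hu
    refine ⟨(sec h v)⁻¹ * u, ?_, by rw [mul_inv_cancel_left]⟩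
    rw [mem_KF, mem_KK, map_mul, map_inv, sec_spec, (mem_filter.mp hu).2, inv_mul_cancel]
  · intro _ _; rfl

lemma iota_sec (hR : R * d = m) (h : ℓ * d' = d) (v : (ZMod d')ˣ) :
    (ℓ : ZMod m) * iota R ((sec h v : (ZMod d)ˣ) : ZMod d) = iota (R * ℓ) (v : ZMod d') := by
  rw [← iota_natMul hR, ← iota_comp hR]
  congr 1
  have h1 : (v : ZMod d') = (((sec h v : (ZMod d)ˣ) : ZMod d).val : ZMod d') := by
    have := congrArg (fun x : (ZMod d')ˣ => (x : ZMod d')) (sec_spec h v)
    simp only [unitsMap_coe] at this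
    have e : ((((sec h v : (ZMod d)ˣ) : ZMod d).val : ℕ) : ZMod d) = (sec h v : (ZMod d)ˣ) :=
      ZMod.natCast_zmod_val _
    rw [← this]
    conv_lhs => rw [← e]
    rw [map_natCast]
  rw [h1, iota_natCast h]
  push_cast
  rw [ZMod.natCast_zmod_val]

end Fiber

section Move

variable {m R d ℓ d' : ℕ} [NeZero m] [NeZero d] [NeZero d']

/-- the third embedding -/
noncomputable def g3 (R ℓ d' : ℕ) (m : ℕ) (v : (ZMod d')ˣ) : ZMod m :=
  if hc : ℓ.Coprime d' then
    iota (R * ℓ) (((ZMod.unitOfCoprime ℓ hc)⁻¹ * v : (ZMod d')ˣ) : ZMod d') else 0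

lemma push_rel (hR : R * d = m) (hℓ : ℓ.Prime) (h : ℓ * d' = d) {Q : Type*} [AddCommGroup Q]
    {c : ZMod m → Q} (hc : OddDist c) {k : (ZMod d)ˣ → ℤ}
    (hK : ∀ κ ∈ KK h, ∀ u, k (u * κ) = k u) :
    ∑ u, k u • c (iota R (u : ZMod d)) =
      ∑ v : (ZMod d')ˣ, k (sec h v) • c (iota (R * ℓ) (v : ZMod d')) -
        if ℓ.Coprime d' then ∑ v : (ZMod d')ˣ, k (sec h v) • c (g3 R ℓ d' m v) else 0 := by
  rw [fiber_sum h]
  have h1 : ∀ v : (ZMod d')ˣ, ∑ κ ∈ KF (KK h), k (sec h v * κ) •
      c (iota R ((sec h v * κ : (ZMod d)ˣ) : ZMod d)) = k (sec h v) •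
        (c (iota (R * ℓ) (v : ZMod d')) - if ℓ.Coprime d' then c (g3 R ℓ d' m v) else 0) := by
    intro v
    have h2 : ∀ κ ∈ KF (KK h), k (sec h v * κ) •
        c (iota R ((sec h v * κ : (ZMod d)ˣ) : ZMod d)) = k (sec h v) •
          c (iota R ((sec h v * κ : (ZMod d)ˣ) : ZMod d)) := fun κ hκ => by
      rw [hK κ (mem_KF.mp hκ)]
    rw [sum_congr rfl h2, ← smul_sum]
    congr 1
    have h3 := coset_decomp hR hℓ h c (sec h v)
    have h4 := hc.dist ℓ (R * d') hℓ (by rw [← hR, ← h]; ring) (iota R ((sec h v : (ZMod d)ˣ) : ZMod d))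
    rw [h4, iota_sec hR h, sec_spec] at h3
    rw [eq_sub_iff_add_eq, h3]
    congr 1
    unfold g3
    split_ifs <;> rfl
  rw [sum_congr rfl fun v _ => h1 v]
  simp only [smul_sub]
  rw [sum_sub_distrib]
  congr 1
  split_ifs
  · rfl
  · simp

/-- **The move.** -/
theorem move (hR : R * d = m) (hℓ : ℓ.Prime) (h : ℓ * d' = d) (x : ZMod m → ℤ)
    {k : (ZMod d)ˣ → ℤ} (hK : ∀ κ ∈ KK h, ∀ u, k (u * κ) = k u) (hodd : ∀ u, k (-u) = - k u) :
    ∃ (y : ZMod m → ℤ) (A : ℤ),
      (∀ (Q : Type) [AddCommGroup Q] (c : ZMod m → Q), OddDist c →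
        ∑ a, y a • c a = ∑ a, x a • c a) ∧
      (Nat.card (KK h) * A = ∑ u, |k u|) ∧
      ∀ ω : ℕ → ℤ, (∀ n, 0 ≤ ω n) → ∑ a : ZMod m, ω (addOrderOf a) * |od y a| ≤
        ∑ a : ZMod m, ω (addOrderOf a) * |od x a| -
          ω d * (∑ u : (ZMod d)ˣ, |od x (iota R (u : ZMod d))| -
            ∑ u : (ZMod d)ˣ, |od x (iota R (u : ZMod d)) - k u|) +
          ω d' * ((if ℓ ∣ d' then 1 else 2) * A) := by
  classical
  have hRℓ : R * ℓ * d' = m := by rw [mul_assoc, h, hR]
  set f := od x with hf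
  set k' : (ZMod d')ˣ → ℤ := fun v => k (sec h v) with hk'
  set g1 : (ZMod d)ˣ → ZMod m := fun u => iota R (u : ZMod d) with hg1
  set g2 : (ZMod d')ˣ → ZMod m := fun v => iota (R * ℓ) (v : ZMod d') with hg2
  -- basic properties
  have hfneg : ∀ a, f (-a) = - f a := od_neg x
  have hk'odd : ∀ v, k' (-v) = - k' v := by
    intro v
    simp only [hk']
    rw [← hodd]
    have h1 : (- sec h v)⁻¹ * sec h (-v) ∈ KK h := by
      rw [mem_KK, map_mul, map_inv, sec_spec]
      have h2 : ZMod.unitsMap (Dvd.intro_left ℓ h) (- sec h v) = -v := by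
        apply Units.ext
        rw [unitsMap_coe, Units.val_neg, map_neg, ← unitsMap_coe, sec_spec, Units.val_neg]
      rw [h2, inv_mul_cancel]
    have h3 := hK _ h1 (- sec h v)
    rw [mul_inv_cancel_left] at h3
    exact h3
  have hg1neg : ∀ u, g1 (-u) = - g1 u := by
    intro u; simp only [hg1]; rw [Units.val_neg, iota_neg hR]
  have hg2neg : ∀ u, g2 (-u) = - g2 u := by
    intro u; simp only [hg2]; rw [Units.val_neg, iota_neg hRℓ]
  have hg3neg : ∀ u, g3 R ℓ d' m (-u) = - g3 R ℓ d' m u := by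
    intro u
    unfold g3
    split_ifs
    · rw [mul_neg, Units.val_neg, iota_neg hRℓ]
    · simp
  set T : ℤ := if ℓ.Coprime d' then 1 else 0 with hT
  set y : ZMod m → ℤ := fun a => posP f a - push g1 (posP k) a + push g2 (posP k') a -
    T * push (g3 R ℓ d' m) (posP k') a with hy
  -- the odd part of `y`
  have hody : ∀ a, od y a = (f a - push g1 k a) + (push g2 k' a - T * push (g3 R ℓ d' m) k' a) := by
    intro a
    have e1 : posP f a - posP f (-a) = f a := posP_sub (hfneg a)
    have e2 := od_push g1 k (Equiv.neg _) hg1neg hodd a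
    have e3 := od_push g2 k' (Equiv.neg _) hg2neg hk'odd a
    have e4 := od_push (g3 R ℓ d' m) k' (Equiv.neg _) hg3neg hk'odd a
    rw [← e1, ← e2, ← e3, ← e4]
    simp only [hy, od]
    ring
  refine ⟨y, ∑ v, |k' v|, ?_, ?_, ?_⟩
  · intro Q _ c hc
    have h1 : ∑ a, x a • c a = ∑ a, posP f a • c a := by
      refine od_kill (fun a => ?_) hc
      have e1 : posP f a - posP f (-a) = f a := posP_sub (hfneg a)
      exact e1.symm
    have h2 : ∑ a, y a • c a = ∑ a, posP f a • c a - ∑ a, push g1 (posP k) a • c a +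
        ∑ a, push g2 (posP k') a • c a - T • ∑ a, push (g3 R ℓ d' m) (posP k') a • c a := by
      simp only [hy, add_smul, sub_smul, mul_smul]
      rw [sum_sub_distrib, sum_add_distrib, sum_sub_distrib, smul_sum]
    rw [h2, h1, push_sum, push_sum, push_sum]
    have h3 := push_rel hR hℓ h hc (k := posP k) (by
      intro κ hκ u
      unfold posP
      rw [hK κ hκ])
    have h4 : ∑ i, posP k i • c (g1 i) = ∑ u : (ZMod d)ˣ, posP k u • c (iota R (u : ZMod d)) := rfl
    rw [h4, h3]
    have h5 : ∑ i, posP k' i • c (g2 i) =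
      ∑ v : (ZMod d')ˣ, posP k (sec h v) • c (iota (R * ℓ) (v : ZMod d')) := rfl
    have h6 : (if ℓ.Coprime d' then ∑ v : (ZMod d')ˣ, posP k (sec h v) • c (g3 R ℓ d' m v) else 0) =
        T • ∑ i, posP k' i • c (g3 R ℓ d' m i) := by
      rw [hT]
      split_ifs
      · rw [one_smul]; rfl
      · rw [zero_smul]
    rw [h5, h6]
    abel
  · rw [fiber_sum h, mul_sum]
    refine sum_congr rfl fun v _ => ?_
    have h1 : ∀ κ ∈ KF (KK h), |k (sec h v * κ)| = |k' v| := fun κ hκ => by
      rw [hK κ (mem_KF.mp hκ)]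
    rw [sum_congr rfl h1, sum_const, card_KF, nsmul_eq_mul]
  · intro ω hω
    set W : ZMod m → ℤ := fun a => ω (addOrderOf a) with hW
    have hW0 : ∀ a, 0 ≤ W a := fun a => hω _
    have s1 : ∑ a, W a * |od y a| ≤ ∑ a, W a * |f a - push g1 k a| +
        (∑ a, W a * |push g2 k' a| + T * ∑ a, W a * |push (g3 R ℓ d' m) k' a|) := by
      rw [mul_sum, ← sum_add_distrib, ← sum_add_distrib]
      refine sum_le_sum fun a _ => ?_
      rw [hody a]
      have hT0 : 0 ≤ T := by rw [hT]; split_ifs <;> norm_num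
      have t1 := abs_add_le (f a - push g1 k a) (push g2 k' a - T * push (g3 R ℓ d' m) k' a)
      have t2 := abs_sub (push g2 k' a) (T * push (g3 R ℓ d' m) k' a)
      rw [abs_mul, abs_of_nonneg hT0] at t2
      calc W a * |(f a - push g1 k a) + (push g2 k' a - T * push (g3 R ℓ d' m) k' a)|
          ≤ W a * (|f a - push g1 k a| + (|push g2 k' a| + T * |push (g3 R ℓ d' m) k' a|)) :=
            mul_le_mul_of_nonneg_left (by linarith) (hW0 a)
        _ = _ := by ring
    have s2 : ∑ a, W a * |push g2 k' a| ≤ ω d' * ∑ v, |k' v| := by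
      refine (push_norm g2 k' hW0).trans (le_of_eq ?_)
      rw [mul_sum]
      refine sum_congr rfl fun v _ => ?_
      simp only [hW, hg2]
      rw [addOrderOf_iota_unit hRℓ]
    have s3 : T * ∑ a, W a * |push (g3 R ℓ d' m) k' a| ≤ T * (ω d' * ∑ v, |k' v|) := by
      rw [hT]
      split_ifs with hcop
      · rw [one_mul, one_mul]
        refine (push_norm _ k' hW0).trans (le_of_eq ?_)
        rw [mul_sum]
        refine sum_congr rfl fun v _ => ?_
        simp only [hW, g3]
        rw [dif_pos hcop, addOrderOf_iota_unit hRℓ]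
      · rw [zero_mul, zero_mul]
    have s4 : ∑ a, W a * |f a - push g1 k a| = ∑ a, W a * |f a| -
        ω d * (∑ u : (ZMod d)ˣ, |f (iota R (u : ZMod d))| -
          ∑ u : (ZMod d)ˣ, |f (iota R (u : ZMod d)) - k u|) := by
      have hp1 : ∀ u : (ZMod d)ˣ, push g1 k (iota R (u : ZMod d)) = k u := by
        intro u
        unfold push
        rw [sum_eq_single u]
        · rw [if_pos rfl]
        · intro v _ hv
          rw [if_neg]
          intro h0
          exact hv (Units.ext (iota_inj hR h0))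
        · intro h0; exact absurd (mem_univ _) h0
      have hp2 : ∀ a : ZMod m, addOrderOf a ≠ d → push g1 k a = 0 := by
        intro a ha
        unfold push
        apply sum_eq_zero
        intro u _
        rw [if_neg]
        intro h0
        apply ha
        rw [← h0]
        exact addOrderOf_iota_unit hR u
      have q1 : ∑ a, W a * |f a - push g1 k a| - ∑ a, W a * |f a| =
          ∑ a ∈ univ.filter (fun a : ZMod m => addOrderOf a = d),
            (W a * |f a - push g1 k a| - W a * |f a|) := by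
        rw [← sum_sub_distrib]
        symm
        apply sum_subset (subset_univ _)
        intro a _ ha
        rw [hp2 a (fun h0 => ha (mem_filter.mpr ⟨mem_univ _, h0⟩)), sub_zero, sub_self]
      rw [sum_order hR] at q1
      have q2 : ∑ u : (ZMod d)ˣ, (W (iota R (u : ZMod d)) *
          |f (iota R (u : ZMod d)) - push g1 k (iota R (u : ZMod d))| -
            W (iota R (u : ZMod d)) * |f (iota R (u : ZMod d))|) =
          ω d * (∑ u : (ZMod d)ˣ, |f (iota R (u : ZMod d)) - k u| -
            ∑ u : (ZMod d)ˣ, |f (iota R (u : ZMod d))|) := by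
        rw [← sum_sub_distrib, mul_sum]
        refine sum_congr rfl fun u _ => ?_
        simp only [hW]
        rw [hp1, addOrderOf_iota_unit hR]
        ring
      rw [q2] at q1
      linarith
    have s5 : ω d' * ∑ v, |k' v| + T * (ω d' * ∑ v, |k' v|) =
        ω d' * ((if ℓ ∣ d' then 1 else 2) * ∑ v, |k' v|) := by
      by_cases hd : ℓ ∣ d'
      · have hcop : ¬ ℓ.Coprime d' := fun h0 => (Nat.Prime.coprime_iff_not_dvd hℓ).mp h0 hd
        rw [hT, if_neg hcop, if_pos hd]; ring
      · have hcop : ℓ.Coprime d' := (Nat.Prime.coprime_iff_not_dvd hℓ).mpr hd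
        rw [hT, if_pos hcop, if_neg hd]; ring
    rw [s4] at s1
    linarith

end Move

end Pool.Agent.Q59.FS
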