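import Pool.Agent.Q59.FS.Move

/-!
# The parity functions of the supports are odd distributions
-/

namespace Pool.Agent.Q59.FS

open Finset Pool.Agent.H916R2

variable {m : ℕ} [NeZero m]

open scoped Classical in
/-- the indicator function of the orders with given prime divisors -/
noncomputable def cS (S : Finset ℕ) (a : ZMod m) : ZMod 2 :=
  if (addOrderOf a).primeFactors = S then 1 else 0

lemma cS_order {S : Finset ℕ} {a : ZMod m} {d : ℕ} (h : addOrderOf a = d) :
    cS S a = if d.primeFactors = S then 1 else 0 := by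
  unfold cS; rw [h]

lemma exists_dvd_order {r e : ℕ} (hr : r.Prime) (hre : r * e = m) (a : ZMod m) :
    r ∣ addOrderOf a ∨ r ∣ addOrderOf (a + (e : ZMod m)) := by
  by_contra hcon
  push Not at hcon
  obtain ⟨h1, h2⟩ := hcon
  have he : addOrderOf (e : ZMod m) = r := by
    have he0 : 0 < e := Nat.pos_of_ne_zero (by rintro rfl; rw [mul_zero] at hre; exact NeZero.ne m hre.symm)
    rw [ZMod.addOrderOf_coe _ (NeZero.ne m), ← hre, Nat.gcd_eq_right (dvd_mul_left e r),
      Nat.mul_div_cancel _ he0]
  have h3 : (addOrderOf a * addOrderOf (a + (e : ZMod m))) • (e : ZMod m) = 0 := by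
    have e1 : (addOrderOf a * addOrderOf (a + (e : ZMod m))) • (a + (e : ZMod m)) = 0 := by
      rw [mul_smul, addOrderOf_nsmul_eq_zero, smul_zero]
    have e2 : (addOrderOf a * addOrderOf (a + (e : ZMod m))) • a = 0 := by
      rw [mul_comm, mul_smul, addOrderOf_nsmul_eq_zero, smul_zero]
    rw [smul_add, e2, zero_add] at e1
    exact e1
  rw [← addOrderOf_dvd_iff_nsmul_eq_zero, he] at h3
  rcases (Nat.Prime.dvd_mul hr).mp h3 with h | h
  · exact h1 h
  · exact h2 h

lemma order_of_mul {R d : ℕ} [NeZero d] (hR : R * d = m) {r d' : ℕ} [NeZero d'] (h : r * d' = d)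
    (u : (ZMod d)ˣ) : addOrderOf ((r : ZMod m) * iota R (u : ZMod d)) = d' := by
  have hr0 : r ≠ 0 := by rintro rfl; rw [zero_mul] at h; exact NeZero.ne d h.symm
  have h1 := addOrderOf_iota_unit (m := m) hR u
  rw [← nsmul_eq_mul, addOrderOf_nsmul' _ hr0, h1, ← h, Nat.gcd_eq_right (dvd_mul_right r d'),
    Nat.mul_div_cancel_left _ (Nat.pos_of_ne_zero hr0)]

theorem cS_oddDist {S : Finset ℕ} (hS : S.Nonempty) (h2 : 2 ∉ S) :
    OddDist (cS S : ZMod m → ZMod 2) where
  neg := by
    intro a
    have h1 : ∀ x : ZMod 2, -x = x := by decide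
    rw [h1]
    unfold cS
    rw [addOrderOf_neg]
  half := by
    intro a ha
    unfold cS
    rw [if_neg]
    intro h
    have h1 : addOrderOf a ∣ 2 := by
      rw [addOrderOf_dvd_iff_nsmul_eq_zero, two_nsmul]; exact ha
    rcases (Nat.dvd_prime Nat.prime_two).mp h1 with h3 | h3
    · rw [h3, Nat.primeFactors_one] at h
      exact hS.ne_empty h.symm
    · rw [h3, Nat.Prime.primeFactors Nat.prime_two] at h
      exact h2 (h ▸ mem_singleton_self 2)
  dist := by
    intro r e hr hre a
    -- an element of the coset of order divisible by `r`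
    obtain ⟨b, hb1, hb2, hb3⟩ : ∃ b : ZMod m, r ∣ addOrderOf b ∧
        (∑ i ∈ range r, cS S (a + (i : ZMod m) * (e : ZMod m)) =
          ∑ i ∈ range r, cS S (b + (i : ZMod m) * (e : ZMod m))) ∧
        (r : ZMod m) * a = (r : ZMod m) * b := by
      rcases exists_dvd_order hr hre a with h | h
      · exact ⟨a, h, rfl, rfl⟩
      · refine ⟨_, h, (coset_sum_shift (fun x => cS S x) hre a).symm, ?_⟩
        have := mul_cast_zero hre
        linear_combination -this
    rw [hb2, hb3]
    obtain ⟨d, hd⟩ : ∃ d, d = addOrderOf b := ⟨_, rfl⟩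
    have hdpos : 0 < d := by rw [hd]; exact addOrderOf_pos b
    have : NeZero d := ⟨hdpos.ne'⟩
    obtain ⟨R, hR0⟩ : d ∣ m := by
      rw [hd]
      have := addOrderOf_dvd_card (x := b)
      rwa [ZMod.card] at this
    have hR : R * d = m := by rw [hR0, mul_comm]
    obtain ⟨d', hd'⟩ : r ∣ d := by rw [hd]; exact hb1
    have hd'0 : 0 < d' := Nat.pos_of_ne_zero (by rintro rfl; rw [mul_zero] at hd'; omega)
    have : NeZero d' := ⟨hd'0.ne'⟩
    obtain ⟨u, hu⟩ := exists_unit hR hd.symm
    have he : e = R * d' := by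
      have h1 : r * e = r * (R * d') := by rw [hre, ← hR, hd']; ring
      exact Nat.eq_of_mul_eq_mul_left hr.pos h1
    rw [← hu, he, coset_decomp hR hr hd'.symm (fun x => cS S x) u,
      cS_order (order_of_mul hR hd'.symm u)]
    have h3 : ∀ κ ∈ KF (KK hd'.symm), cS S (iota R ((u * κ : (ZMod d)ˣ) : ZMod d) : ZMod m) =
        if d.primeFactors = S then 1 else 0 := fun κ _ => cS_order (addOrderOf_iota_unit hR _)
    have hRr : R * r * d' = m := by rw [mul_assoc, ← hd', hR]
    rw [sum_congr rfl h3, sum_const, card_KF, nsmul_eq_mul]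
    have hrd : r ∈ d.primeFactors := Nat.mem_primeFactors.mpr ⟨hr, ⟨d', hd'⟩, hdpos.ne'⟩
    by_cases hr2 : r = 2
    · -- the prime two
      have e1 : ¬ d.primeFactors = S := by
        intro h
        apply h2
        rw [← h, ← hr2]
        exact hrd
      rw [if_neg e1, mul_zero, zero_add]
      split_ifs with hc h4 h4
      · exact (cS_order (addOrderOf_iota_unit hRr _)).trans (by rw [if_pos h4])
      · exact (cS_order (addOrderOf_iota_unit hRr _)).trans (by rw [if_neg h4])
      · exfalso
        have h5 : r ∣ d' := by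
          by_contra hcon
          exact hc ((Nat.Prime.coprime_iff_not_dvd hr).mpr hcon)
        apply h2
        rw [← h4, ← hr2]
        exact Nat.mem_primeFactors.mpr ⟨hr, h5, hd'0.ne'⟩
      · rfl
    · have hodd : Odd r := hr.odd_of_ne_two hr2
      by_cases hrd' : r ∣ d'
      · have hc : ¬ r.Coprime d' := fun h0 => (Nat.Prime.coprime_iff_not_dvd hr).mp h0 hrd'
        have e1 : d.primeFactors = d'.primeFactors := by
          rw [hd', Nat.primeFactors_mul hr.ne_zero hd'0.ne', Nat.Prime.primeFactors hr]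
          apply union_eq_right.mpr
          rw [singleton_subset_iff]
          exact Nat.mem_primeFactors.mpr ⟨hr, hrd', hd'0.ne'⟩
        rw [dif_neg hc, add_zero, card_KK_dvd hr hd'.symm hrd', e1]
        have e2 : ((r : ℕ) : ZMod 2) = 1 := (ZMod.natCast_eq_one_iff_odd).mpr hodd
        rw [e2, one_mul]
      · have hc : r.Coprime d' := (Nat.Prime.coprime_iff_not_dvd hr).mpr hrd'
        rw [dif_pos hc, card_KK_not_dvd hr hd'.symm hrd']
        have e2 : ((r - 1 : ℕ) : ZMod 2) = 0 := by
          rw [ZMod.natCast_eq_zero_iff]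
          obtain ⟨k, hk⟩ := hodd
          exact ⟨k, by omega⟩
        rw [e2, zero_mul, zero_add]
        exact cS_order (addOrderOf_iota_unit hRr _)

end Pool.Agent.Q59.FS
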