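import Pool.Agent.Q59.FS.Ext
import Pool.Agent.Q59.FS.Box

/-!
# The relations in the top order
-/

namespace Pool.Agent.Q59.FS

open Finset Pool.Agent.H916R2

section Base

variable {m R d : ℕ} [NeZero m] [NeZero d]

/-- the base distribution -/
theorem base_PD (hR : R * d = m) {b : (ZMod d)ˣ → ℤ} (hodd : ∀ u, b (-u) = - b u)
    (hb : ∀ ℓ : ℕ, ℓ.Prime → ℓ ∣ d → ∀ u, ∑ κ ∈ KF (KL d ℓ), b (u * κ) = 0) :
    ∃ φ : ZMod m → ℚ, PD d d φ ∧ ∀ u : (ZMod d)ˣ, φ (iota R (u : ZMod d)) = b u := by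
  classical
  set φ : ZMod m → ℚ := fun a =>
    if h : ∃ u : (ZMod d)ˣ, (iota R (u : ZMod d) : ZMod m) = a then (b h.choose : ℚ) else 0 with hφ
  have v1 : ∀ u : (ZMod d)ˣ, φ (iota R (u : ZMod d)) = b u := by
    intro u
    have h : ∃ v : (ZMod d)ˣ, (iota R (v : ZMod d) : ZMod m) = iota R (u : ZMod d) := ⟨u, rfl⟩
    simp only [hφ]
    rw [dif_pos h]
    have h1 : h.choose = u := Units.ext (iota_inj hR h.choose_spec)
    rw [h1]
  have v2 : ∀ a, φ a ≠ 0 → ∃ u : (ZMod d)ˣ, (iota R (u : ZMod d) : ZMod m) = a := by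
    intro a ha
    by_contra hcon
    apply ha
    simp only [hφ]
    rw [dif_neg hcon]
  have v3 : ∀ a, φ a ≠ 0 → addOrderOf a = d := by
    intro a ha
    obtain ⟨u, rfl⟩ := v2 a ha
    exact addOrderOf_iota_unit hR u
  refine ⟨φ, ⟨?_, ?_, ?_, ?_⟩, v1⟩
  · intro a
    by_cases h : ∃ u : (ZMod d)ˣ, (iota R (u : ZMod d) : ZMod m) = a
    · obtain ⟨u, rfl⟩ := h
      rw [← iota_neg hR, ← Units.val_neg, v1, v1, hodd]
      push_cast; ring
    · have h1 : φ a = 0 := by
        by_contra h0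
        exact h (v2 a h0)
      have h2 : φ (-a) = 0 := by
        by_contra h0
        obtain ⟨u, hu⟩ := v2 _ h0
        apply h
        refine ⟨-u, ?_⟩
        rw [Units.val_neg, iota_neg hR, hu, neg_neg]
      rw [h1, h2, neg_zero]
  · intro a ha
    rw [← v3 a ha, ← nsmul_eq_mul, addOrderOf_nsmul_eq_zero]
  · intro a ha
    rw [v3 a ha]
  · intro p e hp hpe hpd a ha
    have hdpos : 0 < d := NeZero.pos d
    obtain ⟨d', hd'⟩ := hpd
    have hd'0 : 0 < d' := Nat.pos_of_ne_zero (by rintro rfl; rw [mul_zero] at hd'; omega)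
    have : NeZero d' := ⟨hd'0.ne'⟩
    have hrhs : φ ((p : ZMod m) * a) = 0 := by
      by_contra h0
      have h1 := v3 _ h0
      have h2 : addOrderOf ((p : ZMod m) * a) ∣ d' := by
        rw [addOrderOf_dvd_iff_nsmul_eq_zero, nsmul_eq_mul]
        have := ha
        rw [hd'] at this
        push_cast at this
        linear_combination this
      rw [h1] at h2
      have h3 := Nat.le_of_dvd hd'0 h2
      have h4 : d' < d := by rw [hd']; exact lt_mul_of_one_lt_left hd'0 hp.one_lt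
      omega
    rw [hrhs]
    by_cases hall : ∀ i ∈ range p, φ (a + (i : ZMod m) * (e : ZMod m)) = 0
    · exact sum_eq_zero hall
    · push Not at hall
      obtain ⟨i0, _, hi0⟩ := hall
      obtain ⟨u, hu⟩ := v2 _ hi0
      have he : e = R * d' := by
        have h1 : p * e = p * (R * d') := by rw [hpe, ← hR, hd']; ring
        exact Nat.eq_of_mul_eq_mul_left hp.pos h1
      rw [← coset_sum_shift_mul φ hpe a i0, ← hu, he]
      rw [coset_decomp hR hp hd'.symm φ u]
      have h1 : ∑ κ ∈ KF (KK hd'.symm), φ (iota R ((u * κ : (ZMod d)ˣ) : ZMod d)) = 0 := by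
        have h2 := hb p hp ⟨d', hd'⟩ u
        rw [KL_eq_KK hp.pos hd'.symm] at h2
        have h3 : ∀ κ ∈ KF (KK hd'.symm), φ (iota R ((u * κ : (ZMod d)ˣ) : ZMod d)) =
            ((b (u * κ) : ℤ) : ℚ) := fun κ _ => v1 _
        rw [sum_congr rfl h3, ← Int.cast_sum, h2, Int.cast_zero]
      rw [h1, zero_add]
      split_ifs with hc
      · by_contra h0
        have h2 := v3 _ h0
        have hRp : R * p * d' = m := by rw [mul_assoc, ← hd', hR]
        rw [addOrderOf_iota_unit hRp] at h2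
        have h4 : d' < d := by rw [hd']; exact lt_mul_of_one_lt_left hd'0 hp.one_lt
        omega
      · rfl

end Base

section Int

variable {m : ℕ} [NeZero m]

lemma exists_clear (φ : ZMod m → ℚ) : ∃ N : ℕ, 0 < N ∧ ∃ g : ZMod m → ℤ,
    ∀ a, ((g a : ℤ) : ℚ) = N * φ a := by
  classical
  refine ⟨∏ a, (φ a).den, prod_pos fun a _ => (φ a).den_pos, fun a =>
    (φ a).num * ∏ c ∈ univ.erase a, ((φ c).den : ℤ), fun a => ?_⟩
  rw [← mul_prod_erase univ _ (mem_univ a)]
  push_cast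
  have h := Rat.mul_den_eq_num (φ a)
  linear_combination -(∏ c ∈ univ.erase a, ((φ c).den : ℚ)) * h

/-- rational odd distributions kill the Hodge relations -/
theorem rel_rat {x : ZMod m → ℤ} (hx : Rel x) {φ : ZMod m → ℚ} (hφ : OddDist φ) :
    ∑ a, (x a : ℚ) * φ a = 0 := by
  obtain ⟨N, hN, g, hg⟩ := exists_clear φ
  have hN' : (N : ℚ) ≠ 0 := by exact_mod_cast hN.ne'
  have hgd : OddDist g := by
    refine ⟨fun a => ?_, fun a ha => ?_, fun p e hp hpe a => ?_⟩
    · have : ((g (-a) : ℤ) : ℚ) = ((- g a : ℤ) : ℚ) := by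
        push_cast
        rw [hg, hg, hφ.neg]; ring
      exact_mod_cast this
    · have : ((g a : ℤ) : ℚ) = ((0 : ℤ) : ℚ) := by
        rw [hg, hφ.half a ha]; simp
      exact_mod_cast this
    · have : ((∑ i ∈ range p, g (a + (i : ZMod m) * (e : ZMod m)) : ℤ) : ℚ) =
          ((g ((p : ZMod m) * a) : ℤ) : ℚ) := by
        push_cast
        rw [hg, ← hφ.dist p e hp hpe a, mul_sum]
        exact sum_congr rfl fun i _ => hg _
      exact_mod_cast this
  have h1 := Pool.Agent.H916K.rel_int hx hgd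
  have h2 : ((∑ a, x a * g a : ℤ) : ℚ) = 0 := by rw [h1]; simp
  push_cast at h2
  have h3 : (N : ℚ) * ∑ a, (x a : ℚ) * φ a = 0 := by
    rw [mul_sum, ← h2]
    exact sum_congr rfl fun a _ => by rw [hg]; ring
  exact (mul_eq_zero.mp h3).resolve_left hN'

/-- the odd part (doubled) -/
def od (x : ZMod m → ℤ) : ZMod m → ℤ := fun a => x a - x (-a)

omit [NeZero m] in
lemma od_neg (x : ZMod m → ℤ) (a : ZMod m) : od x (-a) = - od x a := by
  unfold od; rw [neg_neg]; ring

/-- **The relations in the top order.** -/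
theorem top_rel {R d : ℕ} [NeZero d] (hR : R * d = m) {x : ZMod m → ℤ} (hx : Rel x)
    (htop : ∀ a, od x a ≠ 0 → addOrderOf a ≤ d) {b : (ZMod d)ˣ → ℤ}
    (hb : ∀ ℓ : ℕ, ℓ.Prime → ℓ ∣ d → ∀ u, ∑ κ ∈ KF (KL d ℓ), b (u * κ) = 0) :
    ∑ u : (ZMod d)ˣ, od x (iota R (u : ZMod d)) * b u = 0 := by
  classical
  -- the odd case
  have key : ∀ b : (ZMod d)ˣ → ℤ, (∀ u, b (-u) = - b u) →
      (∀ ℓ : ℕ, ℓ.Prime → ℓ ∣ d → ∀ u, ∑ κ ∈ KF (KL d ℓ), b (u * κ) = 0) →
      ∑ u : (ZMod d)ˣ, od x (iota R (u : ZMod d)) * b u = 0 := by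
    intro b hodd hb
    obtain ⟨φ0, h0, h0'⟩ := base_PD hR hodd hb
    obtain ⟨φ, h1, h1'⟩ := h0.extend (Dvd.intro_left R hR)
    have hval : ∀ u : (ZMod d)ˣ, φ (iota R (u : ZMod d)) = b u := by
      intro u
      rw [h1' _ ?_, h0']
      have := addOrderOf_nsmul_eq_zero (iota R (u : ZMod d) : ZMod m)
      rw [addOrderOf_iota_unit hR u, nsmul_eq_mul] at this
      exact this
    have h2 := rel_rat hx h1.oddDist
    have h3 : ∑ a, ((od x a : ℤ) : ℚ) * φ a = 0 := by
      have h4 : ∑ a, (x (-a) : ℚ) * φ a = - ∑ a, (x a : ℚ) * φ a := by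
        rw [← sum_neg_distrib]
        refine Fintype.sum_equiv (Equiv.neg _) _ _ fun a => ?_
        simp only [Equiv.neg_apply]
        rw [h1.neg]; ring
      unfold od
      push_cast
      simp only [sub_mul]
      rw [sum_sub_distrib, h4, h2]
      ring
    have h4 : ∑ a, ((od x a : ℤ) : ℚ) * φ a =
        ∑ a ∈ univ.filter (fun a : ZMod m => addOrderOf a = d), ((od x a : ℤ) : ℚ) * φ a := by
      symm
      apply sum_subset (subset_univ _)
      intro a _ ha
      have hne : addOrderOf a ≠ d := fun h => ha (mem_filter.mpr ⟨mem_univ _, h⟩)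
      by_cases h5 : φ a = 0
      · rw [h5, mul_zero]
      · by_cases h6 : od x a = 0
        · rw [h6]; simp
        · exfalso
          apply hne
          exact le_antisymm (htop a h6) (Nat.le_of_dvd (addOrderOf_pos a) (h1.ord a h5))
    rw [h4, sum_order hR] at h3
    have h5 : ((∑ u : (ZMod d)ˣ, od x (iota R (u : ZMod d)) * b u : ℤ) : ℚ) = 0 := by
      rw [← h3]
      push_cast
      exact sum_congr rfl fun u _ => by rw [hval]
    exact_mod_cast h5
  have h1 := key (fun u => b u - b (-u)) (fun u => by rw [neg_neg]; ring) (by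
    intro ℓ hℓ hℓd u
    have h2 := hb ℓ hℓ hℓd u
    have h3 := hb ℓ hℓ hℓd (-u)
    rw [sum_sub_distrib, h2]
    have h4 : ∑ κ ∈ KF (KL d ℓ), b (-(u * κ)) = ∑ κ ∈ KF (KL d ℓ), b (-u * κ) :=
      sum_congr rfl fun κ _ => by rw [neg_mul]
    rw [h4, h3, sub_zero])
  have h2 : ∑ u : (ZMod d)ˣ, od x (iota R (u : ZMod d)) * b (-u) =
      - ∑ u : (ZMod d)ˣ, od x (iota R (u : ZMod d)) * b u := by
    rw [← sum_neg_distrib]
    refine Fintype.sum_equiv (Equiv.neg _) _ _ fun u => ?_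
    simp only [Equiv.neg_apply]
    rw [Units.val_neg, iota_neg hR, od_neg]
    ring
  simp only [mul_sub] at h1
  rw [sum_sub_distrib, h2] at h1
  omega

/-- box sums in the top order -/
theorem top_LB {R d : ℕ} [NeZero d] (hR : R * d = m) {x : ZMod m → ℤ} (hx : Rel x)
    (htop : ∀ a, od x a ≠ 0 → addOrderOf a ≤ d) {L : List ℕ}
    (hL : ∀ ℓ : ℕ, ℓ.Prime → ℓ ∣ d → ℓ ∈ L) (u : (ZMod d)ˣ) :
    LB (L.map (KL d)) (TT u (fun v => od x (iota R (v : ZMod d)))) := by
  apply lb_TT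
  intro b hb
  apply top_rel hR hx htop
  intro ℓ hℓ hℓd u
  exact hb _ (List.mem_map.mpr ⟨ℓ, hL ℓ hℓ hℓd, rfl⟩) u

end Int

end Pool.Agent.Q59.FS
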