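import Pool.Agent.Q59.FS.Short

/-!
# Sharpness
-/

namespace Pool.Agent.Q59.FS

open Finset Pool.Agent.H916R2

/-- stable half systems -/
lemma exists_half {G : Type*} [CommGroup G] [Fintype G] [HasDistribNeg G] (g : G)
    (h : ∀ k : ℤ, g ^ k ≠ -1) : ∃ H : Finset G, (∀ u, -u ∈ H ↔ u ∉ H) ∧ ∀ u, g * u ∈ H ↔ u ∈ H := by
  classical
  set N := Subgroup.zpowers g with hN
  have hne : ∀ u : G, (QuotientGroup.mk u : G ⧸ N) ≠ QuotientGroup.mk (-u) := by
    intro u hu
    rw [QuotientGroup.eq] at hu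
    obtain ⟨k, hk⟩ := Subgroup.mem_zpowers_iff.mp hu
    apply h k
    rw [hk, mul_neg, inv_mul_cancel]
  let e : (G ⧸ N) ≃ Fin (Fintype.card (G ⧸ N)) := Fintype.equivFin _
  refine ⟨univ.filter fun u => e (QuotientGroup.mk u) < e (QuotientGroup.mk (-u)), ?_, ?_⟩
  · intro u
    simp only [mem_filter, mem_univ, true_and, neg_neg, not_lt]
    have h1 : e (QuotientGroup.mk u) ≠ e (QuotientGroup.mk (-u)) := fun h2 => hne u (e.injective h2)
    exact ⟨fun h2 => h2.le, fun h2 => lt_of_le_of_ne h2 (Ne.symm h1)⟩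
  · intro u
    simp only [mem_filter, mem_univ, true_and]
    have h1 : (QuotientGroup.mk (g * u) : G ⧸ N) = QuotientGroup.mk u := by
      rw [QuotientGroup.eq]
      have : (g * u)⁻¹ * u = g⁻¹ := by rw [mul_inv_rev, mul_comm u⁻¹, mul_assoc, inv_mul_cancel, mul_one]
      rw [this]
      exact N.inv_mem (Subgroup.mem_zpowers g)
    have h2 : (QuotientGroup.mk (-(g * u)) : G ⧸ N) = QuotientGroup.mk (-u) := by
      rw [QuotientGroup.eq]
      have : (-(g * u))⁻¹ * (-u) = g⁻¹ := by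
        rw [← mul_neg, mul_inv_rev, mul_comm (-u)⁻¹, mul_assoc, inv_mul_cancel, mul_one]
      rw [this]
      exact N.inv_mem (Subgroup.mem_zpowers g)
    rw [h1, h2]

lemma sum_zmod_units {p : ℕ} [Fact p.Prime] {Q : Type*} [AddCommMonoid Q] (F : ZMod p → Q) :
    ∑ b, F b = F 0 + ∑ u : (ZMod p)ˣ, F (u : ZMod p) := by
  classical
  rw [← add_sum_erase univ F (mem_univ 0)]
  congr 1
  symm
  refine sum_bij (fun u _ => (u : ZMod p)) ?_ ?_ ?_ ?_
  · intro u _
    exact mem_erase.mpr ⟨u.ne_zero, mem_univ _⟩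
  · intro u _ v _ h
    exact Units.ext h
  · intro b hb
    exact ⟨Units.mk0 b (ne_of_mem_erase hb), mem_univ _, rfl⟩
  · intro _ _; rfl

section PQ

variable {p q m : ℕ} [Fact p.Prime] [Fact q.Prime] [NeZero m]

/-- the elements of degree `p * q` -/
def el (p q m : ℕ) (u : ZMod q) (v : ZMod p) : ZMod m := iota p u + iota q v

lemma el_neg (hpq : p * q = m) (hqp : q * p = m) (u : ZMod q) (v : ZMod p) :
    el p q m (-u) (-v) = - el p q m u v := by
  unfold el
  rw [iota_neg hpq, iota_neg hqp]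
  ring

/-- sums over the second coordinate -/
lemma sum_el {Q : Type*} [AddCommGroup Q] {c : ZMod m → Q} (hc : OddDist c) (hpq : p * q = m)
    (hqp : q * p = m) (u : ZMod q) :
    ∑ v : (ZMod p)ˣ, c (el p q m u v) = c (el p q m ((p : ZMod q) * u) 0) - c (el p q m u 0) := by
  have h1 : ∑ v : ZMod p, c (el p q m u v) = c (el p q m ((p : ZMod q) * u) 0) := by
    rw [← Pool.Agent.H916K.sum_range_zmod (fun v : ZMod p => c (el p q m u v))]
    have h2 := hc.dist p q Fact.out hpq (iota p u)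
    have h3 : c (el p q m ((p : ZMod q) * u) 0) = c ((p : ZMod m) * iota p u) := by
      unfold el
      rw [iota_natMul hpq, iota_zero, add_zero]
    rw [h3, ← h2]
    refine sum_congr rfl fun i _ => ?_
    unfold el
    rw [iota_natCast hqp]
    congr 2
    push_cast
    ring
  rw [sum_zmod_units] at h1
  rw [← h1]
  abel

lemma el_swap (u : ZMod q) (v : ZMod p) : el p q m u v = el q p m v u := by
  unfold el
  rw [add_comm]

/-- the unit `p` modulo `q` -/
lemma cast_unit (hne : p ≠ q) : (p : ZMod q) ≠ 0 := by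
  rw [Ne, ZMod.natCast_eq_zero_iff]
  intro h
  exact hne ((Nat.prime_dvd_prime_iff_eq Fact.out Fact.out).mp h).symm

/-- vanishing of the sum over a product of half systems -/
theorem sum_half_zero {c : ZMod m → ℤ} (hc : OddDist c) (hpq : p * q = m) (hqp : q * p = m)
    (hne : p ≠ q) {H : Finset (ZMod q)ˣ} {H' : Finset (ZMod p)ˣ}
    (h1 : ∀ u, -u ∈ H ↔ u ∉ H) (h1' : ∀ u, -u ∈ H' ↔ u ∉ H')
    (h2 : ∀ u, Units.mk0 (p : ZMod q) (cast_unit hne) * u ∈ H ↔ u ∈ H)
    (h2' : ∀ u, Units.mk0 (q : ZMod p) (cast_unit (Ne.symm hne)) * u ∈ H' ↔ u ∈ H') :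
    ∑ u ∈ H, ∑ v ∈ H', c (el p q m u v) = 0 := by
  classical
  set f : (ZMod q)ˣ → (ZMod p)ˣ → ℤ := fun u v => c (el p q m u v) with hf
  have fneg : ∀ u v, f (-u) (-v) = - f u v := by
    intro u v
    simp only [hf, Units.val_neg]
    rw [el_neg hpq hqp, hc.neg]
  -- complements
  have hcomp : ∀ F : (ZMod q)ˣ → ℤ, ∑ u ∈ H, F u + ∑ u ∈ H, F (-u) = ∑ u, F u := by
    intro F
    rw [← sum_filter_add_sum_filter_not univ (fun u => u ∈ H) F]
    congr 1
    · exact sum_congr (by ext; simp) fun _ _ => rfl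
    · refine sum_bij (fun u _ => -u) ?_ ?_ ?_ ?_
      · intro u hu
        refine mem_filter.mpr ⟨mem_univ _, ?_⟩
        rw [← h1, neg_neg]; exact hu
      · intro a _ b _ hab; exact neg_injective hab
      · intro u hu
        exact ⟨-u, (h1 u).mpr (mem_filter.mp hu).2, neg_neg u⟩
      · intro _ _; rfl
  have hcomp' : ∀ F : (ZMod p)ˣ → ℤ, ∑ u ∈ H', F u + ∑ u ∈ H', F (-u) = ∑ u, F u := by
    intro F
    rw [← sum_filter_add_sum_filter_not univ (fun u => u ∈ H') F]
    congr 1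
    · exact sum_congr (by ext; simp) fun _ _ => rfl
    · refine sum_bij (fun u _ => -u) ?_ ?_ ?_ ?_
      · intro u hu
        refine mem_filter.mpr ⟨mem_univ _, ?_⟩
        rw [← h1', neg_neg]; exact hu
      · intro a _ b _ hab; exact neg_injective hab
      · intro u hu
        exact ⟨-u, (h1' u).mpr (mem_filter.mp hu).2, neg_neg u⟩
      · intro _ _; rfl
  have hshift : ∀ F : (ZMod q)ˣ → ℤ,
      ∑ u ∈ H, F (Units.mk0 (p : ZMod q) (cast_unit hne) * u) = ∑ u ∈ H, F u := by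
    intro F
    refine sum_bij (fun u _ => Units.mk0 (p : ZMod q) (cast_unit hne) * u) ?_ ?_ ?_ ?_
    · intro u hu; exact (h2 u).mpr hu
    · intro a _ b _ hab; exact mul_left_cancel hab
    · intro u hu
      refine ⟨(Units.mk0 (p : ZMod q) (cast_unit hne))⁻¹ * u, ?_, by rw [mul_inv_cancel_left]⟩
      rw [← h2, mul_inv_cancel_left]; exact hu
    · intro _ _; rfl
  have hshift' : ∀ F : (ZMod p)ˣ → ℤ,
      ∑ u ∈ H', F (Units.mk0 (q : ZMod p) (cast_unit (Ne.symm hne)) * u) = ∑ u ∈ H', F u := by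
    intro F
    refine sum_bij (fun u _ => Units.mk0 (q : ZMod p) (cast_unit (Ne.symm hne)) * u) ?_ ?_ ?_ ?_
    · intro u hu; exact (h2' u).mpr hu
    · intro a _ b _ hab; exact mul_left_cancel hab
    · intro u hu
      refine ⟨(Units.mk0 (q : ZMod p) (cast_unit (Ne.symm hne)))⁻¹ * u, ?_,
        by rw [mul_inv_cancel_left]⟩
      rw [← h2', mul_inv_cancel_left]; exact hu
    · intro _ _; rfl
  -- first relation
  have r1 : ∑ u ∈ H, ∑ v ∈ H', f u v + ∑ u ∈ H, ∑ v ∈ H', f u (-v) = 0 := by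
    rw [← sum_add_distrib, sum_congr rfl fun u _ => hcomp' (fun v => f u v)]
    simp only [hf]
    rw [sum_congr rfl fun (u : (ZMod q)ˣ) _ => sum_el hc hpq hqp (u : ZMod q), sum_sub_distrib]
    have := hshift (fun u => c (el p q m (u : ZMod q) 0))
    simp only [Units.val_mul, Units.val_mk0] at this
    rw [this, sub_self]
  have r2 : ∑ u ∈ H, ∑ v ∈ H', f u v + ∑ u ∈ H, ∑ v ∈ H', f (-u) v = 0 := by
    have e1 : ∑ u ∈ H, ∑ v ∈ H', f u v = ∑ v ∈ H', ∑ u ∈ H, f u v := sum_comm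
    have e2 : ∑ u ∈ H, ∑ v ∈ H', f (-u) v = ∑ v ∈ H', ∑ u ∈ H, f (-u) v := sum_comm
    have e4 : ∀ v : (ZMod p)ˣ, ∑ u : (ZMod q)ˣ, f u v =
        c (el q p m ((q : ZMod p) * v) 0) - c (el q p m (v : ZMod p) 0) := by
      intro v
      rw [← sum_el hc hqp hpq (v : ZMod p)]
      exact sum_congr rfl fun u _ => by simp only [hf]; rw [el_swap]
    rw [e1, e2, ← sum_add_distrib, sum_congr rfl fun v _ => hcomp (fun u => f u v),
      sum_congr rfl fun v _ => e4 v, sum_sub_distrib]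
    have := hshift' (fun u => c (el q p m (u : ZMod p) 0))
    simp only [Units.val_mul, Units.val_mk0] at this
    rw [this, sub_self]
  have r3 : ∑ u ∈ H, ∑ v ∈ H', f u (-v) = - ∑ u ∈ H, ∑ v ∈ H', f (-u) v := by
    rw [← sum_neg_distrib]
    refine sum_congr rfl fun u _ => ?_
    rw [← sum_neg_distrib]
    refine sum_congr rfl fun v _ => ?_
    have := fneg (-u) v
    rw [neg_neg] at this
    exact this
  have : ∑ u ∈ H, ∑ v ∈ H', f u v = 0 := by omega
  exact this

end PQ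

end Pool.Agent.Q59.FS
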