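import Pool.Agent.Q59.FS.Sharp
import Pool.Agent.Y2.Fin

/-!
# Sharpness: the exceptional Hodge characters of degree `p * q`
-/

namespace Pool.Agent.Q59.FS

open Finset Pool.Agent.H916R2

lemma card_half {G : Type*} [CommGroup G] [Fintype G] [HasDistribNeg G] {H : Finset G}
    (h : ∀ u, -u ∈ H ↔ u ∉ H) : 2 * H.card = Fintype.card G := by
  classical
  have h1 : (univ.filter fun u => u ∉ H).card = H.card := by
    refine card_bij (fun u _ => -u) ?_ ?_ ?_
    · intro u hu; exact (h u).mpr (mem_filter.mp hu).2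
    · intro a _ b _ hab; exact neg_injective hab
    · intro u hu
      refine ⟨-u, mem_filter.mpr ⟨mem_univ _, ?_⟩, neg_neg u⟩
      rw [← h, neg_neg]; exact hu
  have h2 := card_filter_add_card_filter_not (s := (univ : Finset G)) (fun u => u ∈ H)
  rw [h1] at h2
  have h3 : (univ.filter fun u => u ∈ H) = H := by ext; simp
  rw [h3, card_univ] at h2
  omega

/-- exactly one of `u0`, `-u0` lies in a half system -/
lemma sum_half_two {G : Type*} [CommGroup G] [Fintype G] [HasDistribNeg G] {H : Finset G}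
    (h : ∀ u, -u ∈ H ↔ u ∉ H) (u0 : G) {P : G → Prop} [DecidablePred P]
    (hP : ∀ u, P u ↔ (u = u0 ∨ u = -u0)) : ∑ u ∈ H, (if P u then (1 : ZMod 2) else 0) = 1 := by
  classical
  by_cases h0 : u0 ∈ H
  · rw [sum_eq_single u0]
    · rw [if_pos ((hP u0).mpr (Or.inl rfl))]
    · intro u hu hne
      rw [if_neg]
      intro hP'
      rcases (hP u).mp hP' with h1 | h1
      · exact hne h1
      · rw [h1] at hu
        exact (h u0).mp hu h0
    · intro hn; exact absurd h0 hn
  · have h0' : -u0 ∈ H := (h u0).mpr h0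
    rw [sum_eq_single (-u0)]
    · rw [if_pos ((hP _).mpr (Or.inr rfl))]
    · intro u hu hne
      rw [if_neg]
      intro hP'
      rcases (hP u).mp hP' with h1 | h1
      · exact h0 (h1 ▸ hu)
      · exact hne h1
    · intro hn; exact absurd h0' hn

section Col

variable {p q m : ℕ} [Fact p.Prime] [Fact q.Prime] [NeZero m]

/-- the indicator of `± 1` in both coordinates -/
def col (hp : p ∣ m) (hq : q ∣ m) (a : ZMod m) : ZMod 2 :=
  (if ZMod.castHom hq (ZMod q) a = 1 ∨ ZMod.castHom hq (ZMod q) a = -1 then 1 else 0) *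
    (if ZMod.castHom hp (ZMod p) a = 1 ∨ ZMod.castHom hp (ZMod p) a = -1 then 1 else 0)

lemma one_ne_neg_one (hp2 : p ≠ 2) : (1 : ZMod p) ≠ -1 := by
  intro h
  have h1 : ((2 : ℕ) : ZMod p) = 0 := by
    push_cast
    linear_combination h
  rw [ZMod.natCast_eq_zero_iff] at h1
  exact hp2 ((Nat.prime_dvd_prime_iff_eq Fact.out Nat.prime_two).mp h1)

lemma sum_pm (hp2 : p ≠ 2) :
    ∑ b : ZMod p, (if b = 1 ∨ b = -1 then (1 : ZMod 2) else 0) = 0 := by
  have h1 : ∀ b : ZMod p, (if b = 1 ∨ b = -1 then (1 : ZMod 2) else 0) =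
      (if b = 1 then 1 else 0) + (if b = -1 then 1 else 0) := by
    intro b
    by_cases h : b = 1
    · rw [if_pos (Or.inl h), if_pos h, if_neg (fun h' => one_ne_neg_one hp2 (h.symm.trans h')),
        add_zero]
    · by_cases h' : b = -1
      · rw [if_pos (Or.inr h'), if_neg h, if_pos h', zero_add]
      · rw [if_neg (by tauto), if_neg h, if_neg h', add_zero]
  rw [sum_congr rfl fun b _ => h1 b, sum_add_distrib]
  simp
  decide

lemma col_dist_aux (hp : p ∣ m) (hq : q ∣ m) (hpq : p * q = m) (hne : p ≠ q) (hp2 : p ≠ 2)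
    (a : ZMod m) : ∑ i ∈ range p, col hp hq (a + (i : ZMod m) * (q : ZMod m)) =
      col hp hq ((p : ZMod m) * a) := by
  classical
  have hrhs : col hp hq ((p : ZMod m) * a) = 0 := by
    unfold col
    have h1 : ZMod.castHom hp (ZMod p) ((p : ZMod m) * a) = 0 := by
      rw [map_mul, map_natCast]; simp
    rw [h1]
    have h2 : ¬ ((0 : ZMod p) = 1 ∨ (0 : ZMod p) = -1) := by
      rintro (h | h)
      · exact zero_ne_one h
      · have : (1 : ZMod p) = 0 := by linear_combination h
        exact one_ne_zero this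
    rw [if_neg h2, mul_zero]
  rw [hrhs]
  unfold col
  have h1 : ∀ i ∈ range p, ZMod.castHom hq (ZMod q) (a + (i : ZMod m) * (q : ZMod m)) =
      ZMod.castHom hq (ZMod q) a := by
    intro i _
    rw [map_add, map_mul, map_natCast, map_natCast]
    simp
  have h2 : ∀ i ∈ range p, ZMod.castHom hp (ZMod p) (a + (i : ZMod m) * (q : ZMod m)) =
      ZMod.castHom hp (ZMod p) a + (i : ZMod p) * (q : ZMod p) := by
    intro i _
    rw [map_add, map_mul, map_natCast, map_natCast]
  rw [sum_congr rfl fun i hi => by rw [h1 i hi, h2 i hi], ← mul_sum,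
    Pool.Agent.H916K.sum_range_zmod (fun i : ZMod p =>
      if ZMod.castHom hp (ZMod p) a + i * (q : ZMod p) = 1 ∨
        ZMod.castHom hp (ZMod p) a + i * (q : ZMod p) = -1 then (1 : ZMod 2) else 0)]
  have hq0 : (q : ZMod p) ≠ 0 := cast_unit (Ne.symm hne)
  have h3 : ∑ i : ZMod p, (if ZMod.castHom hp (ZMod p) a + i * (q : ZMod p) = 1 ∨
        ZMod.castHom hp (ZMod p) a + i * (q : ZMod p) = -1 then (1 : ZMod 2) else 0) =
      ∑ b : ZMod p, (if b = 1 ∨ b = -1 then (1 : ZMod 2) else 0) :=
    Fintype.sum_equiv ((Equiv.mulRight₀ (q : ZMod p) hq0).trans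
      (Equiv.addLeft (ZMod.castHom hp (ZMod p) a))) _ _ fun i => rfl
  rw [h3, sum_pm hp2, mul_zero]

omit [NeZero m] in
lemma col_swap (hp : p ∣ m) (hq : q ∣ m) (a : ZMod m) : col hp hq a = col hq hp a := mul_comm _ _

lemma col_oddDist (hp : p ∣ m) (hq : q ∣ m) (hpq : p * q = m) (hqp : q * p = m) (hne : p ≠ q)
    (hp2 : p ≠ 2) (hq2 : q ≠ 2) : OddDist (col hp hq) where
  neg := by
    intro a
    have h1 : ∀ x : ZMod 2, -x = x := by decide
    rw [h1]
    unfold col
    rw [map_neg, map_neg]
    congr 1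
    · congr 1
      rw [eq_iff_iff, neg_eq_iff_eq_neg, neg_inj]
      tauto
    · congr 1
      rw [eq_iff_iff, neg_eq_iff_eq_neg, neg_inj]
      tauto
  half := by
    intro a ha
    have h1 : ZMod.castHom hp (ZMod p) a = 0 := by
      have h2 : ((2 : ℕ) : ZMod p) * ZMod.castHom hp (ZMod p) a = 0 := by
        have := congrArg (ZMod.castHom hp (ZMod p)) ha
        rw [map_add, map_zero] at this
        push_cast
        linear_combination this
      rcases mul_eq_zero.mp h2 with h3 | h3
      · exfalso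
        rw [ZMod.natCast_eq_zero_iff] at h3
        exact hp2 ((Nat.prime_dvd_prime_iff_eq Fact.out Nat.prime_two).mp h3)
      · exact h3
    unfold col
    rw [h1]
    have h2 : ¬ ((0 : ZMod p) = 1 ∨ (0 : ZMod p) = -1) := by
      rintro (h | h)
      · exact zero_ne_one h
      · have : (1 : ZMod p) = 0 := by linear_combination h
        exact one_ne_zero this
    rw [if_neg h2, mul_zero]
  dist := by
    intro r e hr hre a
    have hrpq : r ∣ p * q := by rw [hpq]; exact Dvd.intro e hre
    have hp' : p.Prime := Fact.out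
    have hq' : q.Prime := Fact.out
    rcases (Nat.Prime.dvd_mul hr).mp hrpq with h | h
    · have h1 : r = p := (Nat.prime_dvd_prime_iff_eq hr hp').mp h
      subst h1
      have h2 : e = q := Nat.eq_of_mul_eq_mul_left hr.pos (hre.trans hpq.symm)
      subst h2
      exact col_dist_aux hp hq hpq hne hp2 a
    · have h1 : r = q := (Nat.prime_dvd_prime_iff_eq hr hq').mp h
      subst h1
      have h2 : e = p := Nat.eq_of_mul_eq_mul_left hr.pos (hre.trans hqp.symm)
      subst h2
      have := col_dist_aux hq hp hqp (Ne.symm hne) hq2 a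
      simpa only [col_swap] using this

omit [NeZero m] in
lemma cast_el_q (hp : p ∣ m) (hq : q ∣ m) (u : ZMod q) (v : ZMod p) :
    ZMod.castHom hq (ZMod q) (el p q m u v) = (p : ZMod q) * u := by
  unfold el iota
  rw [map_add, map_natCast, map_natCast]
  push_cast
  rw [ZMod.natCast_zmod_val]
  simp

/-- **The exceptional characters.** -/
theorem exists_exceptional (hpq : p * q = m) (hne : p ≠ q) (hp2 : p ≠ 2) (hq2 : q ≠ 2)
    (h1 : ∀ k : ℕ, (p : ZMod q) ^ k ≠ -1) (h2 : ∀ k : ℕ, (q : ZMod p) ^ k ≠ -1) :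
    ∃ s : Multiset (ZMod m), IsHodge m s ∧ 4 * Multiset.card s = (p - 1) * (q - 1) ∧
      ¬ Generated m (fun _ => False) s := by
  classical
  have hqp : q * p = m := by rw [mul_comm]; exact hpq
  have hp' : p.Prime := Fact.out
  have hq' : q.Prime := Fact.out
  have hp : p ∣ m := Dvd.intro q hpq
  have hq : q ∣ m := Dvd.intro p hqp
  set gp : (ZMod q)ˣ := Units.mk0 (p : ZMod q) (cast_unit hne) with hgp
  set gq : (ZMod p)ˣ := Units.mk0 (q : ZMod p) (cast_unit (Ne.symm hne)) with hgq
  have hzp : ∀ k : ℤ, gp ^ k ≠ -1 := by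
    intro k hk
    obtain ⟨n, hn⟩ := (mem_powers_iff_mem_zpowers (x := gp) (y := gp ^ k)).mpr ⟨k, rfl⟩
    apply h1 n
    have h3 : gp ^ n = -1 := hn.trans hk
    have h4 := congrArg (fun x : (ZMod q)ˣ => (x : ZMod q)) h3
    simpa [hgp] using h4
  have hzq : ∀ k : ℤ, gq ^ k ≠ -1 := by
    intro k hk
    obtain ⟨n, hn⟩ := (mem_powers_iff_mem_zpowers (x := gq) (y := gq ^ k)).mpr ⟨k, rfl⟩
    apply h2 n
    have h3 : gq ^ n = -1 := hn.trans hk
    have h4 := congrArg (fun x : (ZMod p)ˣ => (x : ZMod p)) h3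
    simpa [hgq] using h4
  obtain ⟨H, hH1, hH2⟩ := exists_half gp hzp
  obtain ⟨H', hH1', hH2'⟩ := exists_half gq hzq
  set s : Multiset (ZMod m) := (H ×ˢ H').val.map (fun x => el p q m (x.1 : ZMod q) (x.2 : ZMod p))
    with hs
  have hsum : ∀ {Q : Type} [AddCommGroup Q] (c : ZMod m → Q),
      (s.map c).sum = ∑ u ∈ H, ∑ v ∈ H', c (el p q m (u : ZMod q) (v : ZMod p)) := by
    intro Q _ c
    rw [hs, Multiset.map_map, ← sum_product' H H' (fun u v => c (el p q m (u : ZMod q) (v : ZMod p)))]
    rfl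
  have hcard : Multiset.card s = H.card * H'.card := by
    rw [hs, Multiset.card_map, ← card_product]; rfl
  have hcH : 2 * H.card = q - 1 := by rw [card_half hH1, ZMod.card_units_eq_totient, Nat.totient_prime hq']
  have hcH' : 2 * H'.card = p - 1 := by rw [card_half hH1', ZMod.card_units_eq_totient, Nat.totient_prime hp']
  have h0 : (0 : ZMod m) ∉ s := by
    intro h
    obtain ⟨x, _, hx⟩ := Multiset.mem_map.mp h
    have h3 := congrArg (ZMod.castHom hq (ZMod q)) hx
    rw [cast_el_q hp hq, map_zero] at h3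
    rcases mul_eq_zero.mp h3 with h4 | h4
    · exact cast_unit hne h4
    · exact x.1.ne_zero h4
  have hsaw : ∀ t : (ZMod m)ˣ, (s.map fun a => saw ((t : ZMod m) * a)).sum = 0 := by
    intro t
    rw [hsum (fun a => saw ((t : ZMod m) * a))]
    refine sum_half_zero (c := fun a => saw ((t : ZMod m) * a)) ⟨fun a => ?_, fun a ha => ?_,
      fun r e _ hre a => saw_dist_unit hre t a⟩ hpq hqp hne hH1 hH1' hH2 hH2'
    · rw [mul_neg]; exact saw_neg _
    · have h3 : saw (-((t : ZMod m) * a)) = - saw ((t : ZMod m) * a) := saw_neg _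
      have h4 : -((t : ZMod m) * a) = (t : ZMod m) * a := by
        linear_combination (-(t : ZMod m)) * ha
      rw [h4] at h3
      change saw ((t : ZMod m) * a) = 0
      omega
  have heven : Even (Multiset.card s) := by
    have h3 := saw_sum_eq s h0 1
    rw [hsaw 1] at h3
    have hmodd : m % 2 = 1 := by
      have e1 := hp'.eq_two_or_odd.resolve_left hp2
      have e2 := hq'.eq_two_or_odd.resolve_left hq2
      rw [← hpq, Nat.mul_mod, e1, e2]
    by_contra hcon
    rw [Nat.not_even_iff_odd] at hcon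
    have h4 : Odd (m * Multiset.card s) := (Nat.odd_iff.mpr hmodd).mul hcon
    obtain ⟨k, hk⟩ := h4
    have h5 : (m : ℤ) * (Multiset.card s : ℤ) = 2 * k + 1 := by exact_mod_cast hk
    omega
  refine ⟨s, isHodge_of_saw h0 heven hsaw, ?_, ?_⟩
  · rw [hcard, ← hcH, ← hcH']; ring
  · intro hgen
    have h3 := Pool.Agent.Y2.gen_sum_zero (col_oddDist hp hq hpq hqp hne hp2 hq2)
      (fun _ h => h.elim) hgen
    rw [hsum] at h3
    have h4 : ∀ (u : (ZMod q)ˣ) (v : (ZMod p)ˣ), col hp hq (el p q m (u : ZMod q) (v : ZMod p)) =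
        (if ((p : ZMod q) * u = 1 ∨ (p : ZMod q) * u = -1) then 1 else 0) *
        (if ((q : ZMod p) * v = 1 ∨ (q : ZMod p) * v = -1) then 1 else 0) := by
      intro u v
      unfold col
      rw [cast_el_q hp hq, el_swap, cast_el_q hq hp]
    rw [sum_congr rfl fun u _ => sum_congr rfl fun v _ => h4 u v] at h3
    simp only [← mul_sum, ← sum_mul] at h3
    have hP : ∀ u : (ZMod q)ˣ, ((p : ZMod q) * u = 1 ∨ (p : ZMod q) * u = -1) ↔
        (u = gp⁻¹ ∨ u = -gp⁻¹) := by
      intro u
      have e1 : (p : ZMod q) * u = ((gp * u : (ZMod q)ˣ) : ZMod q) := by rw [hgp]; simp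
      rw [e1]
      constructor
      · rintro (h | h)
        · left
          have : gp * u = 1 := Units.ext h
          exact (inv_eq_of_mul_eq_one_right this).symm
        · right
          have : gp * u = -1 := Units.ext h
          rw [← mul_neg_one, ← this, inv_mul_cancel_left]
      · rintro (h | h)
        · left; rw [h, mul_inv_cancel, Units.val_one]
        · right; rw [h, mul_neg, mul_inv_cancel, Units.val_neg, Units.val_one]
    have hP' : ∀ u : (ZMod p)ˣ, ((q : ZMod p) * u = 1 ∨ (q : ZMod p) * u = -1) ↔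
        (u = gq⁻¹ ∨ u = -gq⁻¹) := by
      intro u
      have e1 : (q : ZMod p) * u = ((gq * u : (ZMod p)ˣ) : ZMod p) := by rw [hgq]; simp
      rw [e1]
      constructor
      · rintro (h | h)
        · left
          have : gq * u = 1 := Units.ext h
          exact (inv_eq_of_mul_eq_one_right this).symm
        · right
          have : gq * u = -1 := Units.ext h
          rw [← mul_neg_one, ← this, inv_mul_cancel_left]
      · rintro (h | h)
        · left; rw [h, mul_inv_cancel, Units.val_one]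
        · right; rw [h, mul_neg, mul_inv_cancel, Units.val_neg, Units.val_one]
    have s1 := sum_half_two hH1 gp⁻¹ hP
    have s2 := sum_half_two hH1' gq⁻¹ hP'
    rw [s1, s2] at h3
    exact absurd h3 (by decide)

end Col

end Pool.Agent.Q59.FS
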