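import Pool.Agent.Q59.FS.Short
import Pool.Agent.Q59.FS.Par
import Pool.Agent.H916Y.Conv
import Pool.Agent.H916Q.Assemble

/-!
# Short Tate characters
-/

namespace Pool.Agent.Q59.FS

open Finset Pool.Agent.H916R2

section Avg

variable {m : ℕ} [NeZero m] {p : ℕ}

/-- the average over the powers of `p` -/
noncomputable def avg (u : (ZMod m)ˣ) (f : ℕ) (x : ZMod m → ℤ) : ZMod m → ℤ := fun a =>
  ∑ j ∈ range f, x (((u⁻¹ ^ j : (ZMod m)ˣ) : ZMod m) * a)

/-- multiplication by a unit -/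
def mulU (v : (ZMod m)ˣ) : ZMod m ≃ ZMod m := Units.mulLeft v

lemma avg_sum (u : (ZMod m)ˣ) (f : ℕ) (x : ZMod m → ℤ) {Q : Type*} [AddCommGroup Q]
    (c : ZMod m → Q) : ∑ a, avg u f x a • c a =
      ∑ b, x b • ∑ j ∈ range f, c (((u ^ j : (ZMod m)ˣ) : ZMod m) * b) := by
  unfold avg
  simp only [sum_smul, smul_sum]
  rw [sum_comm]
  conv_rhs => rw [sum_comm]
  refine sum_congr rfl fun j _ => ?_
  refine Fintype.sum_equiv (Units.mulLeft (u⁻¹ ^ j)) _ _ fun a => ?_
  simp only [Units.mulLeft_apply]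
  congr 2
  rw [← mul_assoc, ← Units.val_mul, ← mul_pow, mul_inv_cancel, one_pow, Units.val_one, one_mul]

lemma order_unit_mul (v : (ZMod m)ˣ) (a : ZMod m) : addOrderOf ((v : ZMod m) * a) = addOrderOf a := by
  apply Nat.dvd_antisymm
  · rw [addOrderOf_dvd_iff_nsmul_eq_zero, nsmul_eq_mul, mul_left_comm, ← nsmul_eq_mul,
      addOrderOf_nsmul_eq_zero, mul_zero]
  · rw [addOrderOf_dvd_iff_nsmul_eq_zero, nsmul_eq_mul]
    have h := addOrderOf_nsmul_eq_zero ((v : ZMod m) * a)
    rw [nsmul_eq_mul, mul_left_comm] at h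
    exact (v.isUnit.mul_right_eq_zero).mp h

lemma avg_NN (u : (ZMod m)ˣ) (f : ℕ) (x : ZMod m → ℤ) (ℓ r : ℕ) :
    NN (avg u f x) ℓ r ≤ f * NN x ℓ r := by
  have h1 : ∀ a, od (avg u f x) a = ∑ j ∈ range f, od x (((u⁻¹ ^ j : (ZMod m)ˣ) : ZMod m) * a) := by
    intro a
    unfold od avg
    rw [← sum_sub_distrib]
    exact sum_congr rfl fun j _ => by rw [mul_neg]
  unfold NN
  calc ∑ a, om ℓ r (addOrderOf a) * |od (avg u f x) a|
      ≤ ∑ a, ∑ j ∈ range f, om ℓ r (addOrderOf a) *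
          |od x (((u⁻¹ ^ j : (ZMod m)ˣ) : ZMod m) * a)| := by
        refine sum_le_sum fun a _ => ?_
        rw [h1, ← mul_sum]
        exact mul_le_mul_of_nonneg_left (abs_sum_le_sum_abs _ _) (om_nonneg _ _ _)
    _ = ∑ j ∈ range f, ∑ b, om ℓ r (addOrderOf b) * |od x b| := by
        rw [sum_comm]
        refine sum_congr rfl fun j _ => ?_
        refine Fintype.sum_equiv (Units.mulLeft (u⁻¹ ^ j)) _ _ fun a => ?_
        simp only [Units.mulLeft_apply]
        rw [order_unit_mul]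
    _ = f * ∑ b, om ℓ r (addOrderOf b) * |od x b| := by
        rw [sum_const, card_range, nsmul_eq_mul]

open scoped Classical in
/-- **Parity of short Tate characters.** -/
theorem short_parity (hp : p.Coprime m) (hf : Odd (orderOf (p : ZMod m)))
    {s : Multiset (ZMod m)} (hs : Pool.Agent.H916T.IsTate p m s)
    (hsh : ∀ ℓ r : ℕ, ℓ.Prime → r.Prime → ℓ ≠ r →
      4 * (orderOf (p : ZMod m) * ww ℓ r s) < nn ℓ * nn r)
    {S : Finset ℕ} (hS : S.Nonempty) (h2 : 2 ∉ S) :
    Even (s.countP (Pool.Agent.H916Q.Supp S)) := by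
  set f := orderOf (p : ZMod m) with hf'
  set u : (ZMod m)ˣ := (Pool.Agent.H916T.isUnit_p hp).unit with hu
  have hup : ((u : (ZMod m)ˣ) : ZMod m) = p := IsUnit.unit_spec _
  set x : ZMod m → ℤ := fun a => ((s.count a : ℕ) : ℤ) with hx
  have hrel : Rel (avg u f x) := by
    intro t
    have h1 := avg_sum u f x (fun a => saw ((t : ZMod m) * a))
    simp only [smul_eq_mul] at h1
    rw [h1]
    have h3 := hs.W_sum hp t
    rw [← sum_count s (fun a => Pool.Agent.H916T.W p ((t : ZMod m) * a))] at h3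
    simp only [smul_eq_mul] at h3
    rw [← h3]
    refine sum_congr rfl fun b _ => ?_
    congr 1
    unfold Pool.Agent.H916T.W
    refine sum_congr rfl fun j _ => ?_
    congr 1
    rw [Units.val_pow_eq_pow_val, hup]
    ring
  have hN : ∀ ℓ r : ℕ, ℓ.Prime → r.Prime → ℓ ≠ r → 2 * NN (avg u f x) ℓ r < nn ℓ * nn r := by
    intro ℓ r hℓ hr hne
    have h1 := avg_NN u f x ℓ r
    have h3 := NN_count_le s ℓ r
    have h4 : (f : ℤ) * NN x ℓ r ≤ f * (2 * ww ℓ r s) :=
      mul_le_mul_of_nonneg_left h3 (by positivity)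
    have h5 := hsh ℓ r hℓ hr hne
    linarith
  have hkill := kill_of_short _ _ rfl hrel hN (ZMod 2) (cS S) (cS_oddDist hS h2)
  rw [avg_sum] at hkill
  have h3 : ∀ b : ZMod m, ∑ j ∈ range f, cS S (((u ^ j : (ZMod m)ˣ) : ZMod m) * b) = cS S b := by
    intro b
    have h4 : ∀ j ∈ range f, cS S (((u ^ j : (ZMod m)ˣ) : ZMod m) * b) = cS S b := by
      intro j _
      unfold cS
      rw [order_unit_mul]
    rw [sum_congr rfl h4, sum_const, card_range, nsmul_eq_mul,
      (ZMod.natCast_eq_one_iff_odd).mpr hf, one_mul]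
  rw [sum_congr rfl fun b _ => by rw [h3 b], sum_count s (cS S)] at hkill
  have h4 : ∀ t : Multiset (ZMod m), (t.map (cS S)).sum =
      ((t.countP (Pool.Agent.H916Q.Supp S) : ℕ) : ZMod 2) := by
    intro t
    induction t using Multiset.induction_on with
    | empty => simp
    | cons a t ih =>
      rw [Multiset.map_cons, Multiset.sum_cons, ih]
      by_cases h : Pool.Agent.H916Q.Supp S a
      · have h0 : cS S a = 1 := by unfold cS; exact if_pos h
        rw [h0, Multiset.countP_cons_of_pos _ h]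
        push_cast; ring
      · have h0 : cS S a = 0 := by unfold cS; exact if_neg h
        rw [h0, Multiset.countP_cons_of_neg _ h, zero_add]
  rw [h4, ZMod.natCast_eq_zero_iff] at hkill
  exact even_iff_two_dvd.mpr hkill

/-- short Tate characters are generated by surfaces and standard characters -/
theorem tate_short (hpp : p.Prime) (hp : p.Coprime m) (hf : Odd (orderOf (p : ZMod m)))
    {s : Multiset (ZMod m)} (hs : Pool.Agent.H916T.IsTate p m s) (hne : s ≠ 0)
    (hsh : ∀ ℓ r : ℕ, ℓ.Prime → r.Prime → ℓ ≠ r →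
      4 * (orderOf (p : ZMod m) * ww ℓ r s) < nn ℓ * nn r) :
    ∃ N : ℕ, 0 < N ∧ p.Coprime N ∧ ∀ M : ℕ, N * m = M →
      Pool.Agent.H916T.Generated M (Pool.Agent.H916Z.ZBase p M)
        (s.map (iota N : ZMod m → ZMod M)) := by
  classical
  refine Pool.Agent.H916Y.parity_main hpp (NeZero.pos m) hp hs hne fun a => ?_
  exact Pool.Agent.H916Q.link_parity hs.1 hs.2.1
    (fun S hS h2 => short_parity hp hf hs hsh hS h2) a

end Avg

end Pool.Agent.Q59.FS
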